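import Pool.Agent.H62.BR.Pk

/-!
Convolution with `pk M` in the last variable of `α × ℝ` (rows CZ and CY).
-/

set_option autoImplicit false

namespace Pool.Agent.H62.BR

open MeasureTheory Set FourierTransform
open Pool.Agent.H83.LS Pool.Agent.H83.AR Pool.Agent.H93.AR Pool.Agent.H54.LS Pool.Agent.H14.LS
open scoped ENNReal NNReal SchwartzMap

variable {α : Type} [MeasurableSpace α]

/-- convolution in the last variable -/
noncomputable def cc (M : ℝ) (F : α × ℝ → ℂ) (q : α × ℝ) : ℂ :=
  ∫ z : ℝ, pk M (q.2 - z) * F (q.1, z)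

lemma cc_measurable {M : ℝ} (hM : 0 < M) {F : α × ℝ → ℂ} (hF : Measurable F) :
    Measurable (cc M F) := by
  have h : Measurable (fun q : (α × ℝ) × ℝ => pk M (q.1.2 - q.2) * F (q.1.1, q.2)) := by
    apply Measurable.mul
    · exact (continuous_pk M hM).measurable.comp (by fun_prop)
    · exact hF.comp (by fun_prop)
  exact (StronglyMeasurable.integral_prod_right' (ν := volume) h.stronglyMeasurable).measurable

lemma cc_bound {M : ℝ} (hM : 0 < M) (F : α × ℝ → ℂ) (y : α) (B : ℝ) (hB : ∀ z, ‖F (y, z)‖ ≤ B)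
    (s : ℝ) : ‖cc M F (y, s)‖ ≤ C1 * B := by
  unfold cc
  have h1 : Integrable (fun z : ℝ => ‖pk M (s - z)‖ * B) :=
    (((integrable_pk M hM).comp_sub_left s).norm).mul_const B
  have h2 : ∫ z : ℝ, ‖pk M (s - z)‖ * B = C1 * B := by
    rw [integral_mul_const, integral_sub_left_eq_self (fun z : ℝ => ‖pk M z‖) volume s,
      integral_norm_pk M hM]
  rw [← h2]
  apply norm_integral_le_of_norm_le h1
  refine Filter.Eventually.of_forall (fun z => ?_)
  rw [norm_mul]
  exact mul_le_mul_of_nonneg_left (hB z) (norm_nonneg _)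

lemma cc_lp (hYG : T_YG) {M : ℝ} (hM : 0 < M) {F : α × ℝ → ℂ} (hF : Measurable F) (μ : Measure α)
    [SFinite μ] (p : ℝ) (hp : 1 ≤ p) :
    ∫⁻ q, ‖cc M F q‖ₑ ^ p ∂(μ.prod volume) ≤
      ENNReal.ofReal C1 ^ p * ∫⁻ q, ‖F q‖ₑ ^ p ∂(μ.prod volume) := by
  have hm1 : Measurable (fun q : α × ℝ => ‖cc M F q‖ₑ ^ p) :=
    ((cc_measurable hM hF).enorm).pow_const p
  have hm2 : Measurable (fun q : α × ℝ => ‖F q‖ₑ ^ p) := (hF.enorm).pow_const p
  rw [lintegral_prod _ hm1.aemeasurable, lintegral_prod _ hm2.aemeasurable]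
  rw [← lintegral_const_mul _ (Measurable.lintegral_prod_right' hm2)]
  apply lintegral_mono
  intro y
  have hFy : Measurable (fun z : ℝ => ‖F (y, z)‖ₑ) := (hF.comp (by fun_prop)).enorm
  have h := hYG ℝ (volume : Measure ℝ) (fun z => ‖pk M z‖ₑ) (fun z => ‖F (y, z)‖ₑ) p
    ((continuous_pk M hM).measurable.enorm) hFy hp
  rw [lintegral_pk M hM] at h
  refine le_trans ?_ h
  apply lintegral_mono
  intro s
  apply ENNReal.rpow_le_rpow _ (by linarith)
  refine (enorm_integral_le_lintegral_enorm _).trans (le_of_eq ?_)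
  congr 1; ext z
  rw [enorm_mul]

lemma cc_integrable (hYG : T_YG) {M : ℝ} (hM : 0 < M) {F : α × ℝ → ℂ} (hF : Measurable F)
    (μ : Measure α) [SFinite μ] (hi : Integrable F (μ.prod volume)) :
    Integrable (cc M F) (μ.prod volume) := by
  refine ⟨(cc_measurable hM hF).aestronglyMeasurable, ?_⟩
  have h := cc_lp hYG hM hF μ 1 le_rfl
  simp only [ENNReal.rpow_one] at h
  exact lt_of_le_of_lt h (ENNReal.mul_lt_top ENNReal.ofReal_lt_top hi.2)

lemma cc_fourier1 {M : ℝ} (hM : 0 < M) (G : ℝ → ℂ) (hG : Integrable G) (s : ℝ) :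
    ∫ x : ℝ, e (-(x * s)) * ∫ z : ℝ, pk M (x - z) * G z =
      ((chis (s / M) : ℝ) : ℂ) * ∫ z : ℝ, e (-(z * s)) * G z := by
  have hint : Integrable (fun q : ℝ × ℝ => e (-(q.1 * s)) * (pk M (q.1 - q.2) * G q.2)) := by
    have h0 : Integrable (fun q : ℝ × ℝ => pk M q.1 * G q.2) (volume.prod volume) :=
      (integrable_pk M hM).mul_prod hG
    have h1 : MeasurePreserving (fun q : ℝ × ℝ => (q.1 - q.2, q.2)) (volume.prod volume)
        (volume.prod volume) := by
      have := measurePreserving_sub_prod (volume : Measure ℝ) (volume : Measure ℝ)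
      exact this
    have h2 : Integrable (fun q : ℝ × ℝ => pk M (q.1 - q.2) * G q.2) (volume.prod volume) := by
      exact h1.integrable_comp_of_integrable h0
    apply h2.bdd_mul (c := 1)
    · exact (measurable_e.comp (by fun_prop)).aestronglyMeasurable
    · exact Filter.Eventually.of_forall (fun ζ => (norm_e _).le)
  calc
    _ = ∫ x : ℝ, ∫ z : ℝ, e (-(x * s)) * (pk M (x - z) * G z) := by
        congr 1; ext x; rw [integral_const_mul]
    _ = ∫ z : ℝ, ∫ x : ℝ, e (-(x * s)) * (pk M (x - z) * G z) := integral_integral_swap hint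
    _ = ∫ z : ℝ, ((chis (s / M) : ℝ) : ℂ) * (e (-(z * s)) * G z) := by
        congr 1; ext z
        have := pk_inv_shift M hM z s
        calc _ = (∫ x : ℝ, e (-(x * s)) * pk M (x - z)) * G z := by
              rw [← integral_mul_const]
              congr 1; ext x; ring
          _ = _ := by rw [this]; ring
    _ = _ := integral_const_mul _ _

lemma cc_fourier (hYG : T_YG) {M : ℝ} (hM : 0 < M) {F : α × ℝ → ℂ} (hF : Measurable F)
    (μ : Measure α) [SFinite μ] (hi : Integrable F (μ.prod volume)) (ψ : α → ℂ)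
    (hψ : Measurable ψ) (hψ1 : ∀ y, ‖ψ y‖ ≤ 1) (s : ℝ) :
    ∫ q, ψ q.1 * e (-(q.2 * s)) * cc M F q ∂(μ.prod volume) =
      ((chis (s / M) : ℝ) : ℂ) * ∫ q, ψ q.1 * e (-(q.2 * s)) * F q ∂(μ.prod volume) := by
  have hb : ∀ G : α × ℝ → ℂ, Integrable G (μ.prod volume) →
      Integrable (fun q : α × ℝ => ψ q.1 * e (-(q.2 * s)) * G q) (μ.prod volume) := by
    intro G hG
    apply hG.bdd_mul (c := 1)
    · apply Measurable.aestronglyMeasurable
      apply Measurable.mul
      · exact hψ.comp measurable_fst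
      · exact measurable_e.comp (by fun_prop)
    · refine Filter.Eventually.of_forall (fun q => ?_)
      rw [norm_mul, norm_e, mul_one]
      exact hψ1 _
  rw [integral_prod _ (hb _ (cc_integrable hYG hM hF μ hi)), integral_prod _ (hb _ hi),
    ← integral_const_mul]
  apply integral_congr_ae
  filter_upwards [hi.prod_right_ae] with y hy
  have h1 := cc_fourier1 hM (fun z => F (y, z)) hy s
  calc _ = ψ y * ∫ x : ℝ, e (-(x * s)) * ∫ z : ℝ, pk M (x - z) * F (y, z) := by
        rw [← integral_const_mul]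
        congr 1; ext x
        unfold cc
        ring
    _ = _ := by
        rw [h1]
        rw [show (∫ x : ℝ, ψ (y, x).1 * e (-((y, x).2 * s)) * F (y, x)) =
          ψ y * ∫ z : ℝ, e (-(z * s)) * F (y, z) by
            rw [← integral_const_mul]; congr 1; ext x; ring]
        ring

end Pool.Agent.H62.BR
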