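import Pool.Agent.H62.BR.CC

/-!
Row CY: the cutoff of the second frequency in the plane.
-/

set_option autoImplicit false

namespace Pool.Agent.H62.BR

open MeasureTheory Set FourierTransform
open Pool.Agent.H83.LS Pool.Agent.H83.AR Pool.Agent.H93.AR Pool.Agent.H54.LS
open scoped ENNReal NNReal SchwartzMap

lemma cy_cc (M : ℝ) (g : ℝ × ℝ → ℂ) : cy M g = cc M g := by
  ext x
  unfold cy cc
  rfl

/-- the symbol of `KK2` without the oscillating factor -/
noncomputable def aa2 (lam Lam M : ℝ) (ξ : ℝ × ℝ) : ℂ :=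
  H27.aa lam Lam ξ * ((chis (ξ.2 / M) : ℝ) : ℂ)

lemma integrable_aa2 (lam Lam M : ℝ) (hlam : 0 < lam) : Integrable (aa2 lam Lam M) := by
  unfold aa2
  apply (H27.integrable_aa lam Lam hlam).mul_bdd (c := 1)
  · apply Measurable.aestronglyMeasurable
    exact Complex.measurable_ofReal.comp (H27.continuous_chis.measurable.comp (by fun_prop))
  · refine Filter.Eventually.of_forall (fun ξ => ?_)
    rw [Complex.norm_real, Real.norm_eq_abs]
    exact H27.abs_chis_le _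

lemma cv_eq2 (t lam Lam M : ℝ) (hlam : 0 < lam) (g : ℝ × ℝ → ℂ) (hg : Integrable g)
    (x : ℝ × ℝ) :
    cv (KK2 t lam Lam M) g x = ∫ ξ : ℝ × ℝ,
      e (x.1 * ξ.1 + x.2 * ξ.2 + t * Real.sqrt (ξ.1 ^ 2 + ξ.2 ^ 2)) *
        (aa2 lam Lam M ξ * Ff g ξ) := by
  have hint : Integrable (fun q : (ℝ × ℝ) × (ℝ × ℝ) =>
      e ((x.1 - q.1.1) * q.2.1 + (x.2 - q.1.2) * q.2.2 + t * Real.sqrt (q.2.1 ^ 2 + q.2.2 ^ 2)) *
        (g q.1 * aa2 lam Lam M q.2)) := by
    apply (hg.mul_prod (integrable_aa2 lam Lam M hlam)).bdd_mul (c := 1)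
    · exact (measurable_e.comp (by fun_prop)).aestronglyMeasurable
    · exact Filter.Eventually.of_forall (fun ζ => (norm_e _).le)
  calc
    _ = ∫ y : ℝ × ℝ, ∫ ξ : ℝ × ℝ, e ((x.1 - y.1) * ξ.1 + (x.2 - y.2) * ξ.2 +
        t * Real.sqrt (ξ.1 ^ 2 + ξ.2 ^ 2)) * (g y * aa2 lam Lam M ξ) := by
        unfold cv KK2
        congr 1
        ext y
        rw [← integral_mul_const]
        congr 1
        ext ξ
        simp only [Prod.fst_sub, Prod.snd_sub]
        unfold aa2 H27.aa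
        push_cast
        ring
    _ = ∫ ξ : ℝ × ℝ, ∫ y : ℝ × ℝ, e ((x.1 - y.1) * ξ.1 + (x.2 - y.2) * ξ.2 +
        t * Real.sqrt (ξ.1 ^ 2 + ξ.2 ^ 2)) * (g y * aa2 lam Lam M ξ) :=
        integral_integral_swap hint
    _ = _ := by
        congr 1
        ext ξ
        unfold Ff
        rw [← mul_assoc, ← integral_const_mul]
        congr 1
        ext y
        rw [show (x.1 - y.1) * ξ.1 + (x.2 - y.2) * ξ.2 + t * Real.sqrt (ξ.1 ^ 2 + ξ.2 ^ 2) =
          (x.1 * ξ.1 + x.2 * ξ.2 + t * Real.sqrt (ξ.1 ^ 2 + ξ.2 ^ 2)) +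
          (-(y.1 * ξ.1 + y.2 * ξ.2)) by ring, e_add]
        ring

theorem pf_cy (hYG : T_YG) : T_CY := by
  refine ⟨C1 + C1 ^ 2 + 1, by have := C1_nonneg; positivity, ?_⟩
  intro M A g hM hgm hgi hgA
  have hC := C1_nonneg
  have hA : 0 ≤ A := (norm_nonneg _).trans (hgA 0)
  rw [cy_cc]
  have hcm : Measurable (cc M g) := cc_measurable hM hgm
  have hci : Integrable (cc M g) := cc_integrable hYG hM hgm volume hgi
  have hb : ∀ (x₁ B : ℝ), (∀ z, ‖g (x₁, z)‖ ≤ B) → ∀ z, ‖cc M g (x₁, z)‖ ≤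
      (C1 + C1 ^ 2 + 1) * B := by
    intro x₁ B hB z
    refine (cc_bound hM g x₁ B hB z).trans ?_
    have hB0 : 0 ≤ B := (norm_nonneg _).trans (hB 0)
    apply mul_le_mul_of_nonneg_right _ hB0
    nlinarith
  refine ⟨hcm, hci, fun x => hb x.1 A (fun z => hgA _) x.2, hb, ?_, ?_⟩
  · intro S hS
    have h1 : (volume : Measure (ℝ × ℝ)).restrict {x : ℝ × ℝ | x.1 ∈ S} =
        (volume.restrict S).prod volume := by
      have h2 : {x : ℝ × ℝ | x.1 ∈ S} = S ×ˢ (univ : Set ℝ) := by ext x; simp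
      rw [h2, Measure.volume_eq_prod, ← Measure.prod_restrict, Measure.restrict_univ]
    rw [h1]
    have h := cc_lp hYG hM hgm (volume.restrict S) 2 (by norm_num)
    simp only [ENNReal.rpow_ofNat] at h
    refine h.trans ?_
    gcongr
    rw [← ENNReal.ofReal_pow hC]
    apply ENNReal.ofReal_le_ofReal
    nlinarith
  · intro t lam Lam x hlam hLam
    rw [cv_eq2 t lam Lam M hlam g hgi x, H27.cv_eq t lam Lam hlam _ hci x]
    congr 1
    ext ξ
    have h := cc_fourier hYG hM hgm (volume : Measure ℝ) hgi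
      (fun y : ℝ => e (-(y * ξ.1))) (measurable_e.comp (by fun_prop))
      (fun y => (norm_e _).le) ξ.2
    have h3 : Ff (cc M g) ξ = ((chis (ξ.2 / M) : ℝ) : ℂ) * Ff g ξ := by
      unfold Ff
      rw [Measure.volume_eq_prod]
      have h4 : ∀ y : ℝ × ℝ, e (-(y.1 * ξ.1 + y.2 * ξ.2)) = e (-(y.1 * ξ.1)) * e (-(y.2 * ξ.2)) := by
        intro y
        rw [neg_add, e_add]
      simp only [h4]
      exact h
    rw [h3]
    unfold aa2
    ring

end Pool.Agent.H62.BR
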