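import Pool.Agent.H62.BR.CC
import Pool.Agent.H31.BR.AF

/-!
Row CZ: the cutoff of the last frequency.
-/

set_option autoImplicit false

namespace Pool.Agent.H62.BR

open MeasureTheory Set FourierTransform
open Pool.Agent.H83.LS Pool.Agent.H83.AR Pool.Agent.H93.AR Pool.Agent.H54.LS
open scoped ENNReal NNReal SchwartzMap

lemma cz_cc {n : ℕ} (M : ℝ) (f : EE (n + 1) → ℂ) (q : EE n × ℝ) :
    cz M f (jo q.1 q.2) = cc M (fun q : EE n × ℝ => f (jo q.1 q.2)) q := by
  unfold cz cc
  rw [pr_jo, jo_last]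

lemma cz_cc' {n : ℕ} (M : ℝ) (f : EE (n + 1) → ℂ) (x : EE (n + 1)) :
    cz M f x = cc M (fun q : EE n × ℝ => f (jo q.1 q.2)) (pr x, x (Fin.last n)) := by
  unfold cz cc
  rfl

lemma measurable_last {n : ℕ} : Measurable (fun x : EE (n + 1) => x (Fin.last n)) :=
  (EuclideanSpace.proj (𝕜 := ℝ) (Fin.last n)).continuous.measurable

lemma cz_measurable {n : ℕ} {M : ℝ} (hM : 0 < M) {f : EE (n + 1) → ℂ} (hf : Measurable f) :
    Measurable (cz M f) := by
  have h1 : Measurable (cc M (fun q : EE n × ℝ => f (jo q.1 q.2))) :=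
    cc_measurable hM (hf.comp continuous_jo.measurable)
  have h2 : cz M f = (cc M (fun q : EE n × ℝ => f (jo q.1 q.2))) ∘
      (fun x => (pr x, x (Fin.last n))) := by
    ext x; exact cz_cc' M f x
  rw [h2]
  exact h1.comp (continuous_pr.measurable.prodMk measurable_last)

lemma integrable_jo {n : ℕ} {f : EE (n + 1) → ℂ} (hf : Integrable f) :
    Integrable (fun q : EE n × ℝ => f (jo q.1 q.2)) (volume.prod volume) :=
  (mp_jo n).integrable_comp_of_integrable hf

lemma integrable_of_jo {n : ℕ} {f : EE (n + 1) → ℂ} (hm : Measurable f)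
    (hf : Integrable (fun q : EE n × ℝ => f (jo q.1 q.2)) (volume.prod volume)) :
    Integrable f := by
  exact ((mp_jo n).integrable_comp hm.aestronglyMeasurable).1 hf

lemma lintegral_jo {n : ℕ} {h : EE (n + 1) → ℝ≥0∞} (hm : Measurable h) :
    ∫⁻ x, h x = ∫⁻ q : EE n × ℝ, h (jo q.1 q.2) ∂(volume.prod volume) :=
  ((mp_jo n).lintegral_comp hm).symm

lemma integral_jo {n : ℕ} {h : EE (n + 1) → ℂ} (hm : Measurable h) :
    ∫ x, h x = ∫ q : EE n × ℝ, h (jo q.1 q.2) ∂(volume.prod volume) := by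
  have h1 := integral_map (μ := (volume.prod volume : Measure (EE n × ℝ)))
    (φ := fun q : EE n × ℝ => jo q.1 q.2) continuous_jo.measurable.aemeasurable (f := h)
    (by rw [(mp_jo n).map_eq]; exact hm.aestronglyMeasurable)
  rw [(mp_jo n).map_eq] at h1
  exact h1

lemma fourier_jo {n : ℕ} (f : EE (n + 1) → ℂ) (hf : Measurable f) (ξ : EE (n + 1)) :
    𝓕 f ξ = ∫ q : EE n × ℝ, e (-(inner ℝ q.1 (pr ξ))) * e (-(q.2 * ξ (Fin.last n))) *
      f (jo q.1 q.2) ∂(volume.prod volume) := by
  rw [Real.fourier_eq']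
  have h1 : ∀ x : EE (n + 1), Complex.exp (((-2 * Real.pi * inner ℝ x ξ : ℝ) : ℂ) * Complex.I) • f x =
      e (-(inner ℝ x ξ)) * f x := by
    intro x
    unfold e
    rw [smul_eq_mul]
    congr 4
    ring
  rw [show (∫ v, Complex.exp (((-2 * Real.pi * inner ℝ v ξ : ℝ) : ℂ) * Complex.I) • f v) =
    ∫ x, e (-(inner ℝ x ξ)) * f x by congr 1; ext x; exact h1 x]
  rw [integral_jo (h := fun x => e (-(inner ℝ x ξ)) * f x) (Measurable.mul
    (measurable_e.comp (by fun_prop)) hf)]
  congr 1; ext q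
  rw [inner_eq, pr_jo, jo_last, neg_add, e_add]

theorem pf_cz (hZB : T_ZB) (hZN : T_ZN) (hYG : T_YG) : T_CZ := by
  intro n hn
  refine ⟨C1 + C1 ^ 2 + 1, by have := C1_nonneg; positivity, ?_⟩
  intro M A f hM hf
  obtain ⟨hfm, hfi, hfA⟩ := hf
  have hC := C1_nonneg
  have hA : 0 ≤ A := (norm_nonneg _).trans (hfA 0)
  have hFm : Measurable (fun q : EE n × ℝ => f (jo q.1 q.2)) := hfm.comp continuous_jo.measurable
  have hczm := cz_measurable hM hfm
  have hFo : ∀ ξ, 𝓕 (cz M f) ξ = ((chis (ξ (Fin.last n) / M) : ℝ) : ℂ) * 𝓕 f ξ := by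
    intro ξ
    rw [fourier_jo (cz M f) hczm ξ, fourier_jo f hfm ξ]
    have h := cc_fourier hYG hM hFm volume (integrable_jo hfi)
      (fun y : EE n => e (-(inner ℝ y (pr ξ)))) (measurable_e.comp (by fun_prop))
      (fun y => (norm_e _).le) (ξ (Fin.last n))
    rw [← h]
    congr 1; ext q
    rw [cz_cc]
  refine ⟨⟨hczm, ?_, ?_⟩, ?_, hFo, ?_, ?_, ?_, ?_⟩
  · apply integrable_of_jo hczm
    have h := cc_integrable hYG hM hFm volume (integrable_jo hfi)
    refine h.congr (Filter.Eventually.of_forall (fun q => ?_))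
    exact (cz_cc M f q).symm
  · intro x
    rw [cz_cc']
    refine (cc_bound hM _ _ A (fun z => hfA _) _).trans ?_
    apply mul_le_mul_of_nonneg_right _ hA
    nlinarith
  · rw [lintegral_jo ((hczm.enorm).pow_const 2), lintegral_jo ((hfm.enorm).pow_const 2)]
    have h := cc_lp hYG hM hFm volume 2 (by norm_num)
    simp only [ENNReal.rpow_ofNat] at h
    calc _ = ∫⁻ q : EE n × ℝ, ‖cc M (fun q : EE n × ℝ => f (jo q.1 q.2)) q‖ₑ ^ 2
          ∂(volume.prod volume) := by
          congr 1; ext q; rw [cz_cc]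
      _ ≤ _ := h
      _ ≤ _ := by
          gcongr
          rw [← ENNReal.ofReal_pow hC]
          apply ENNReal.ofReal_le_ofReal
          nlinarith
  · intro m x
    unfold MM
    congr 1; ext ξ
    rw [hFo]
    ring
  · intro S hS x hx
    by_contra h
    apply hx
    unfold cz
    have : ∀ z : ℝ, f (jo (pr x) z) = 0 := by
      intro z
      by_contra h2
      apply h
      have h3 := hS _ h2
      rwa [hor_jo, ← hor_eq] at h3
    simp [this]
  · intro S x
    by_cases hx : hor x ∈ S
    · rw [indicator_of_mem (show x ∈ {x | hor x ∈ S} from hx)]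
      unfold cz
      congr 1; ext z
      rw [indicator_of_mem]
      show hor (jo (pr x) z) ∈ S
      rwa [hor_jo, ← hor_eq]
    · rw [indicator_of_notMem (show x ∉ {x | hor x ∈ S} from hx)]
      unfold cz
      have : ∀ z : ℝ, ({x | hor x ∈ S} : Set (EE (n + 1))).indicator f (jo (pr x) z) = 0 := by
        intro z
        rw [indicator_of_notMem]
        show hor (jo (pr x) z) ∉ S
        rwa [hor_jo, ← hor_eq]
      simp [this]
  · intro L hL x
    obtain ⟨c, hc⟩ : ∃ c : EE n, c = (hor x)⁻¹ • pr x := ⟨_, rfl⟩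
    have hu : c = 0 ∨ ‖c‖ = 1 := by
      by_cases h0 : hor x = 0
      · left; rw [hc, h0]; simp
      · right
        rw [hc, norm_smul, norm_inv, Real.norm_eq_abs, abs_of_nonneg (hor_nonneg x), hor_eq]
        rw [hor_eq] at h0
        exact inv_mul_cancel₀ h0
    have hzi : Integrable (fun w : Sp n => ((zk n L c (w : EE n) : ℝ) : ℂ)) (sg n) :=
      Pool.Agent.H31.BR.zk_integrable hZB hZN hn hL c hu
    have hint : Integrable (fun q : Sp n × ℝ => ((zk n L c (q.1 : EE n) : ℝ) : ℂ) *
        pk M (x (Fin.last n) - q.2) * f (jo (hor x • (q.1 : EE n)) q.2)) ((sg n).prod volume) := by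
      have h1 : Integrable (fun q : Sp n × ℝ => ((zk n L c (q.1 : EE n) : ℝ) : ℂ) *
          pk M (x (Fin.last n) - q.2)) ((sg n).prod volume) :=
        hzi.mul_prod ((integrable_pk M hM).comp_sub_left _)
      apply h1.mul_bdd (c := A)
      · apply Measurable.aestronglyMeasurable
        have h3 : Measurable (fun q : Sp n × ℝ => hor x • (q.1 : EE n)) :=
          (measurable_subtype_coe.comp measurable_fst).const_smul (hor x)
        have h2 : Measurable (fun q : Sp n × ℝ => (hor x • (q.1 : EE n), q.2)) :=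
          h3.prodMk measurable_snd
        exact hFm.comp h2
      · exact Filter.Eventually.of_forall (fun q => hfA _)
    calc AL L (cz M f) x = ∫ w : Sp n, (∫ z : ℝ, ((zk n L c (w : EE n) : ℝ) : ℂ) *
          pk M (x (Fin.last n) - z) * f (jo (hor x • (w : EE n)) z)) ∂(sg n) := by
          unfold AL
          rw [← hc]
          congr 1; ext w
          unfold cz
          rw [pr_jo, jo_last, ← integral_const_mul]
          congr 1; ext z
          ring
      _ = ∫ z : ℝ, ∫ w : Sp n, ((zk n L c (w : EE n) : ℝ) : ℂ) *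
          pk M (x (Fin.last n) - z) * f (jo (hor x • (w : EE n)) z) ∂(sg n) :=
          integral_integral_swap hint
      _ = _ := by
          unfold cz
          congr 1; ext z
          unfold AL
          rw [hor_jo, pr_jo, jo_last, ← hor_eq, ← hc, ← integral_const_mul]
          congr 1; ext w
          ring

end Pool.Agent.H62.BR
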