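import Pool.Agent.H83.AR.Targets
import Pool.Agent.H14.LS.Main3

/-!
MP_ee74d2_an, board br_modules, module MA: restricted type estimate for `T A_L²`.
Adapted from `Pool/Agent/H14/LS/Main3.lean`.
-/

set_option autoImplicit false

namespace Pool.Agent.H62.BR

open MeasureTheory Set FourierTransform Filter
open scoped ENNReal NNReal SchwartzMap Topology
open Pool.Agent.H83.AR Pool.Agent.H93.AR Pool.Agent.H83.LS Pool.Agent.H54.LS Pool.Agent.H14.LS

theorem hor_sq_add {n : ℕ} (x : EE (n + 1)) : hor x ^ 2 + x (Fin.last n) ^ 2 = ‖x‖ ^ 2 := by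
  unfold hor
  rw [Real.sq_sqrt]
  · ring
  · have h1 : |x (Fin.last n)| ≤ ‖x‖ := by
      have := PiLp.norm_apply_le x (Fin.last n)
      simpa using this
    have h2 := sq_le_sq' (by linarith [abs_nonneg (x (Fin.last n)), norm_nonneg x]) h1
    rw [sq_abs] at h2
    linarith

theorem al_mul (hAM : T_AM) {n : ℕ} {L : ℝ} (hn : 1 ≤ n) (hL : 1 ≤ L) (f : EE (n + 1) → ℂ)
    (c : ℝ → ℝ → ℂ) :
    AL L (fun x => c (hor x) (x (Fin.last n)) * f x) =
      fun x => c (hor x) (x (Fin.last n)) * AL L f x := by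
  funext x
  exact (hAM n L hn hL).2.2.2.2.1 f c x

theorem al_ind (hAM : T_AM) {n i : ℕ} {L : ℝ} (hn : 1 ≤ n) (hL : 1 ≤ L) (f : EE (n + 1) → ℂ) :
    AL L ((Nb n i).indicator f) = (Nb n i).indicator (AL L f) := by
  classical
  set c : ℝ → ℝ → ℂ := fun h _ => if 8 * ((i : ℝ) - 1) ≤ h ∧ h < 8 * ((i : ℝ) + 2) then 1 else 0
    with hc
  have key : ∀ g : EE (n + 1) → ℂ, (Nb n i).indicator g =
      fun x => c (hor x) (x (Fin.last n)) * g x := by
    intro g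
    funext x
    by_cases hx : x ∈ Nb n i
    · rw [indicator_of_mem hx]
      have hx' : 8 * ((i : ℝ) - 1) ≤ hor x ∧ hor x < 8 * ((i : ℝ) + 2) := hx
      simp only [hc]
      rw [if_pos hx', one_mul]
    · rw [indicator_of_notMem hx]
      have hx' : ¬ (8 * ((i : ℝ) - 1) ≤ hor x ∧ hor x < 8 * ((i : ℝ) + 2)) := hx
      simp only [hc]
      rw [if_neg hx', zero_mul]
  rw [key f, al_mul hAM hn hL f c, key (AL L f)]

theorem al_bcd (hAM : T_AM) {n : ℕ} {L A : ℝ} (hn : 1 ≤ n) (hL : 1 ≤ L) {f : EE (n + 1) → ℂ}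
    (hf : BCd A f) : BCd A (AL L f) := by
  classical
  obtain ⟨h1, h2, R, h3⟩ := hf
  have hA := hAM n L hn hL
  refine ⟨hA.1 f h1, hA.2.1 f A h1 h2, max R 0, fun x hx => ?_⟩
  set c : ℝ → ℝ → ℂ := fun h z => if h ^ 2 + z ^ 2 ≤ (max R 0) ^ 2 then 1 else 0 with hc
  have hR0 : 0 ≤ max R 0 := le_max_right _ _
  have hfc : f = fun x => c (hor x) (x (Fin.last n)) * f x := by
    funext y
    simp only [hc]
    rw [hor_sq_add]
    by_cases hy : ‖y‖ ^ 2 ≤ (max R 0) ^ 2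
    · rw [if_pos hy, one_mul]
    · rw [if_neg hy, zero_mul]
      apply h3
      by_contra h
      push Not at h
      apply hy
      exact pow_le_pow_left₀ (norm_nonneg _) (h.trans (le_max_left _ _)) 2
  have h4 := al_mul hAM hn hL f c
  rw [← hfc] at h4
  have h5 := congrFun h4 x
  rw [h5]
  simp only [hc]
  rw [hor_sq_add, if_neg, zero_mul]
  intro h
  have := abs_le_of_sq_le_sq h hR0
  rw [abs_norm] at this
  linarith

theorem al_l2 (hAM : T_AM) {n : ℕ} {L A : ℝ} (hn : 1 ≤ n) (hL : 1 ≤ L) {f : EE (n + 1) → ℂ}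
    (hf : BCd A f) : ∫⁻ x, ‖AL L f x‖ₑ ^ 2 ≤ ∫⁻ x, ‖f x‖ₑ ^ 2 := by
  have h1 := (hAM n L hn hL).2.2.1 f 2 hf.1 (by norm_num)
  simpa only [ENNReal.rpow_two] using h1

/-- the pieces on the shell `i` -/
theorem piece_shell' (hP : T_PI) (hAM : T_AM) {n : ℕ} {p η : ℝ} (hn : 2 ≤ n) (hp2 : 2 < p)
    (hp : p ≤ 2 + 2 / (n : ℝ)) (hη : 0 < η) : ∃ C : ℝ≥0,
    ∀ (i : ℕ) (lam Lam L A : ℝ) (f : EE (n + 1) → ℂ), 1 ≤ lam → 1 ≤ Lam → Lam ≤ 4 * lam →
    1 ≤ L → BCd A f →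
    ∫⁻ t in Icc (1 : ℝ) 2, ∫⁻ x in Sh n i,
      ‖MM (mj n lam Lam t) ((Nb n i).indicator (AL L (AL L f))) x‖ₑ ^ p ≤
      C * ENNReal.ofReal (L ^ 2 * lam ^ η * A ^ (p - 2)) *
        ∫⁻ x, ‖(Nb n i).indicator f x‖ₑ ^ 2 := by
  obtain ⟨C, hC⟩ := hP n p η hn hp2 hp hη
  refine ⟨C, ?_⟩
  intro i lam Lam L A f hl hL hL2 hLL hf
  have hn1 : 1 ≤ n := by omega
  rw [← al_ind hAM hn1 hLL (AL L f), ← al_ind hAM hn1 hLL f]
  obtain ⟨h1, h2⟩ := hC lam Lam L A ((Nb n i).indicator f) hl hL hL2 hLL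
    (bcd_ind hf (Nb_meas n i))
  have hsup : ∀ x, (Nb n i).indicator f x ≠ 0 → x ∈ Nb n i := by
    intro x hx
    by_contra h
    exact hx (indicator_of_notMem h f)
  rcases lt_or_ge i 2 with hi | hi
  · refine le_trans (lintegral_mono fun t => setLIntegral_le_lintegral _ _) (h1 ?_)
    intro x hx
    have h3 := (hsup x hx).2
    have h4 : (i : ℝ) ≤ 1 := by
      have : i ≤ 1 := by omega
      exact_mod_cast this
    linarith
  · refine le_trans (lintegral_mono fun t => lintegral_mono_set ?_) (h2 i hi ?_)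
    · intro x hx
      exact ⟨hx.1, hx.2.le⟩
    · intro x hx
      exact ⟨(hsup x hx).1, (hsup x hx).2.le⟩

theorem shell_bound' (hP : T_PI) (hAM : T_AM) (hLX : T_LOWX) (hPL : T_PLE) {n : ℕ} {p η : ℝ}
    (hn : 2 ≤ n) (hp2 : 2 < p) (hp : p ≤ 2 + 2 / (n : ℝ)) (hη : 0 < η) : ∃ C₀ C₁ : ℝ≥0,
    ∀ (i M : ℕ) (lam L A : ℝ) (f : EE (n + 1) → ℂ), 1 ≤ lam → 2 * lam ≤ 2 ^ M →
    (2 : ℝ) ^ M ≤ 4 * lam → 1 ≤ L → BCd A f →
    ∫⁻ t in Icc (1 : ℝ) 2, ∫⁻ x in Sh n i,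
      ‖MM (mT lam t) ((Nb n i).indicator (AL L (AL L f))) x‖ₑ ^ p ≤
      ((M + 1 : ℕ) : ℝ≥0∞) ^ p * ((ENNReal.ofReal (((C₀ : ℝ) * A) ^ (p - 2)) +
        M * (C₁ * ENNReal.ofReal (L ^ 2 * lam ^ η * A ^ (p - 2)))) *
        ∫⁻ x, ‖(Nb n i).indicator f x‖ₑ ^ 2) := by
  obtain ⟨C₀, hC₀⟩ := low_piece hLX hPL hn
  obtain ⟨C₁, hC₁⟩ := piece_shell' hP hAM hn hp2 hp hη
  refine ⟨C₀, C₁, ?_⟩
  intro i M lam L A f hl hM1 hM2 hLL hf
  have hn1 : 1 ≤ n := by omega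
  have hl0 : 0 < lam := by linarith
  have hp0 : 0 ≤ p := by linarith
  set g : EE (n + 1) → ℂ := (Nb n i).indicator (AL L (AL L f)) with hg
  have hgB : BCd A g := bcd_ind (al_bcd hAM hn1 hLL (al_bcd hAM hn1 hLL hf)) (Nb_meas n i)
  have hgI := bcd_int hgB
  have hfB : BCd A ((Nb n i).indicator f) := bcd_ind hf (Nb_meas n i)
  have hg2 : ∫⁻ x, ‖g x‖ₑ ^ 2 ≤ ∫⁻ x, ‖(Nb n i).indicator f x‖ₑ ^ 2 := by
    rw [hg, ← al_ind hAM hn1 hLL (AL L f), ← al_ind hAM hn1 hLL f]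
    exact (al_l2 hAM hn1 hLL (al_bcd hAM hn1 hLL hfB)).trans (al_l2 hAM hn1 hLL hfB)
  obtain ⟨b, hb0, hbs⟩ : ∃ b : ℕ → ℝ → EE (n + 1) → ℝ≥0∞,
      (∀ t x, b 0 t x = ‖MM (m0 n lam t) g x‖ₑ) ∧
      (∀ j t x, b (j + 1) t x = ‖MM (mj n lam (2 ^ (j + 1)) t) g x‖ₑ) :=
    ⟨fun j t x => Nat.casesOn j (‖MM (m0 n lam t) g x‖ₑ)
      (fun j => ‖MM (mj n lam (2 ^ (j + 1)) t) g x‖ₑ), fun _ _ => rfl, fun _ _ _ => rfl⟩
  have hbm : ∀ j, Measurable fun q : ℝ × EE (n + 1) => b j q.1 q.2 ^ p := by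
    intro j
    rcases j with _ | j
    · simp_rw [hb0]
      exact (MM_meas (m0_meas n lam) (fourier_meas' hgI)).enorm.pow_const _
    · simp_rw [hbs]
      exact (MM_meas (mj_meas n lam _) (fourier_meas' hgI)).enorm.pow_const _
  have hpt : ∀ t x, ‖MM (mT lam t) g x‖ₑ ^ p ≤
      ((M + 1 : ℕ) : ℝ≥0∞) ^ p * ∑ j ∈ Finset.range (M + 1), b j t x ^ p := by
    intro t x
    refine le_trans (ENNReal.rpow_le_rpow ?_ hp0)
      (fin_sum_pow (by linarith) (M + 1) (fun j => b j t x))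
    rw [split_pt hl0 hM1 hgI x, Finset.sum_range_succ', add_comm]
    refine le_trans (enorm_add_le _ _) ?_
    rw [hb0]
    refine add_le_add ?_ le_rfl
    refine le_trans (enorm_sum_le _ _) (le_of_eq ?_)
    refine Finset.sum_congr rfl fun j _ => ?_
    rw [hbs]
  have hc : ((M + 1 : ℕ) : ℝ≥0∞) ^ p ≠ ⊤ :=
    ENNReal.rpow_ne_top_of_nonneg hp0 (ENNReal.natCast_ne_top _)
  calc ∫⁻ t in Icc (1 : ℝ) 2, ∫⁻ x in Sh n i, ‖MM (mT lam t) g x‖ₑ ^ p
      ≤ ∫⁻ t in Icc (1 : ℝ) 2, ∫⁻ x in Sh n i,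
          ((M + 1 : ℕ) : ℝ≥0∞) ^ p * ∑ j ∈ Finset.range (M + 1), b j t x ^ p :=
        lintegral_mono fun t => lintegral_mono fun x => hpt t x
    _ = ((M + 1 : ℕ) : ℝ≥0∞) ^ p * ∑ j ∈ Finset.range (M + 1),
          ∫⁻ t in Icc (1 : ℝ) 2, ∫⁻ x in Sh n i, b j t x ^ p := by
        simp_rw [lintegral_const_mul' _ _ hc]
        congr 1
        have e1 : ∀ t, ∫⁻ x in Sh n i, ∑ j ∈ Finset.range (M + 1), b j t x ^ p =
            ∑ j ∈ Finset.range (M + 1), ∫⁻ x in Sh n i, b j t x ^ p := fun t =>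
          lintegral_finsetSum _ fun j _ => (hbm j).comp (measurable_prodMk_left (x := t))
        simp_rw [e1]
        exact lintegral_finsetSum _ fun j _ =>
          (hbm j).lintegral_prod_right' (ν := volume.restrict (Sh n i))
    _ ≤ _ := by
        refine mul_le_mul_right ?_ _
        rw [Finset.sum_range_succ', add_comm, add_mul]
        refine add_le_add ?_ ?_
        · calc ∫⁻ t in Icc (1 : ℝ) 2, ∫⁻ x in Sh n i, b 0 t x ^ p
              ≤ ∫⁻ t in Icc (1 : ℝ) 2, ENNReal.ofReal (((C₀ : ℝ) * A) ^ (p - 2)) *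
                ∫⁻ x, ‖(Nb n i).indicator f x‖ₑ ^ 2 := by
                simp_rw [hb0]
                apply setLIntegral_mono' measurableSet_Icc
                intro t ht
                refine le_trans (setLIntegral_le_lintegral _ _)
                  (le_trans (hC₀ p lam t A g hp2 hl ht hgB) ?_)
                exact mul_le_mul_right hg2 _
            _ = _ := by
                rw [setLIntegral_const, Real.volume_Icc]
                norm_num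
        · refine le_trans (Finset.sum_le_card_nsmul _ _
            (C₁ * ENNReal.ofReal (L ^ 2 * lam ^ η * A ^ (p - 2)) *
              ∫⁻ x, ‖(Nb n i).indicator f x‖ₑ ^ 2) ?_) ?_
          · intro j hj
            rw [Finset.mem_range] at hj
            have h1 : (1 : ℝ) ≤ 2 ^ (j + 1) := one_le_pow₀ (by norm_num)
            have h2 : (2 : ℝ) ^ (j + 1) ≤ 4 * lam :=
              le_trans (pow_le_pow_right₀ (by norm_num) (by omega)) hM2
            simp_rw [hbs]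
            exact hC₁ i lam (2 ^ (j + 1)) L A f hl h1 h2 hLL hf
          · rw [Finset.card_range, nsmul_eq_mul]
            exact le_of_eq (by ring)

theorem pf_ma (hPI : T_PI) (hLX : T_LOWX) (hR : T_RADL) (hPLE : T_PLE) (hYG : T_YG)
    (hAM : T_AM) : T_MA := by
  intro n p η hn hp2 hp hη
  have hp0 : 0 ≤ p := by linarith
  have hn1 : 1 ≤ n := by omega
  obtain ⟨C₀, C₁, hS⟩ := shell_bound' hPI hAM hLX hPLE hn hp2 hp (η := η / 2) (by positivity)
  obtain ⟨C₂, hF⟩ := far_bound hR hYG hn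
  obtain ⟨C₃, hC₃⟩ := count (η := η / 2) (q := p + 1) (by positivity) (by linarith)
  refine ⟨2 ^ (p - 1) * (C₂ ^ p + 3 * (C₃ * (C₀ ^ (p - 2) + C₁))), ?_⟩
  intro lam L' A f hl hLL hf
  have hl0 : 0 < lam := by linarith
  have hA := bcd_nonneg hf
  obtain ⟨M, hM1, hM2, hM3⟩ := hC₃ lam hl
  set g : EE (n + 1) → ℂ := AL L' (AL L' f) with hgdef
  have hgB : BCd A g := al_bcd hAM hn1 hLL (al_bcd hAM hn1 hLL hf)
  set G : ℝ≥0∞ := ∫⁻ x, ‖f x‖ₑ ^ 2 with hG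
  have hgG : ∫⁻ x, ‖g x‖ₑ ^ 2 ≤ G :=
    (al_l2 hAM hn1 hLL (al_bcd hAM hn1 hLL hf)).trans (al_l2 hAM hn1 hLL hf)
  set fi : ℕ → EE (n + 1) → ℂ := fun i => (Nb n i).indicator f with hfi
  set gi : ℕ → EE (n + 1) → ℂ := fun i => (Nb n i).indicator g with hgi
  set far : ℝ → EE (n + 1) → ℝ≥0∞ := fun t x =>
    ∫⁻ y, {z : EE (n + 1) | 4 ≤ ‖z‖}.indicator (fun z => ‖MK (mT lam t) z‖ₑ) (x - y) * ‖g y‖ₑ
    with hfar
  have hmeas : ∀ i, Measurable fun q : ℝ × EE (n + 1) => ‖MM (mT lam q.1) (gi i) q.2‖ₑ ^ p :=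
    fun i => (MM_meas (mT_meas lam)
      (fourier_meas' (bcd_int (bcd_ind hgB (Nb_meas n i))))).enorm.pow_const _
  have hpt : ∀ t x, ‖MM (mT lam t) g x‖ₑ ^ p ≤ 2 ^ (p - 1) * (far t x ^ p +
      ∑' i, (Sh n i).indicator (fun x => ‖MM (mT lam t) (gi i) x‖ₑ ^ p) x) := by
    intro t x
    obtain ⟨k, hk⟩ := exists_shell x
    have h1 := (loc_pt (t := t) hl0 hgB hk).trans_eq (add_comm _ _)
    refine le_trans (ENNReal.rpow_le_rpow h1 hp0) ?_
    refine le_trans (ENNReal.rpow_add_le_mul_rpow_add_rpow _ _ (by linarith)) ?_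
    gcongr
    have h2 : ‖MM (mT lam t) (gi k) x‖ₑ ^ p =
        (Sh n k).indicator (fun x => ‖MM (mT lam t) (gi k) x‖ₑ ^ p) x := by
      rw [indicator_of_mem hk]
    rw [h2]
    exact ENNReal.le_tsum (f := fun i => (Sh n i).indicator
      (fun x => ‖MM (mT lam t) (gi i) x‖ₑ ^ p) x) k
  have h2p : (2 : ℝ≥0∞) ^ (p - 1) ≠ ⊤ := ENNReal.rpow_ne_top_of_nonneg (by linarith) (by norm_num)
  have hstep : ∀ t ∈ Icc (1 : ℝ) 2, ∫⁻ x, ‖MM (mT lam t) g x‖ₑ ^ p ≤ 2 ^ (p - 1) *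
      ((C₂ : ℝ≥0∞) ^ p * (ENNReal.ofReal (A ^ (p - 2)) * G) +
        ∑' i, ∫⁻ x in Sh n i, ‖MM (mT lam t) (gi i) x‖ₑ ^ p) := by
    intro t ht
    refine le_trans (lintegral_mono fun x => hpt t x) ?_
    rw [lintegral_const_mul' _ _ h2p]
    refine mul_le_mul_right ?_ _
    have hm2 : Measurable fun x => ∑' i, (Sh n i).indicator
        (fun x => ‖MM (mT lam t) (gi i) x‖ₑ ^ p) x := by
      refine Measurable.tsum fun i => ?_
      exact ((hmeas i).comp (measurable_prodMk_left (x := t))).indicator (Sh_meas n i)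
    rw [lintegral_add_right _ hm2]
    refine add_le_add ?_ (le_of_eq ?_)
    · refine le_trans (hF p lam t g (by linarith) hl ht hgB.1) ?_
      refine mul_le_mul_right (le_trans (pow_split hp2 hA fun x => ?_)
        (mul_le_mul_right hgG _)) _
      rw [← ofReal_norm]
      exact ENNReal.ofReal_le_ofReal (hgB.2.1 x)
    · rw [lintegral_tsum]
      · congr 1; funext i
        rw [lintegral_indicator (Sh_meas n i)]
      · intro i
        exact (((hmeas i).comp (measurable_prodMk_left (x := t))).indicator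
          (Sh_meas n i)).aemeasurable
  have hGi : ∑' i, ∫⁻ x, ‖fi i x‖ₑ ^ 2 ≤ 3 * G := by
    rw [← lintegral_tsum]
    · rw [hG, ← lintegral_const_mul' _ _ (by norm_num)]
      refine lintegral_mono fun x => ?_
      refine le_trans (le_of_eq ?_) (overlap x (‖f x‖ₑ ^ 2))
      congr 1; funext i
      rw [hfi]
      by_cases hx : x ∈ Nb n i
      · simp only [indicator_of_mem hx]
      · simp [indicator_of_notMem hx]
    · intro i
      exact ((hf.1.indicator (Nb_meas n i)).enorm.pow_const 2).aemeasurable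
  have hmain : ∫⁻ t in Icc (1 : ℝ) 2, ∫⁻ x, ‖MM (mT lam t) g x‖ₑ ^ p ≤ 2 ^ (p - 1) *
      ((C₂ : ℝ≥0∞) ^ p * (ENNReal.ofReal (A ^ (p - 2)) * G) +
        ((M + 1 : ℕ) : ℝ≥0∞) ^ p * ((ENNReal.ofReal (((C₀ : ℝ) * A) ^ (p - 2)) +
        M * (C₁ * ENNReal.ofReal (L' ^ 2 * lam ^ (η / 2) * A ^ (p - 2)))) * (3 * G))) := by
    refine le_trans (setLIntegral_mono' measurableSet_Icc hstep) ?_
    rw [lintegral_const_mul' _ _ h2p]
    refine mul_le_mul_right ?_ _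
    have hm3 : Measurable fun t => ∑' i, ∫⁻ x in Sh n i, ‖MM (mT lam t) (gi i) x‖ₑ ^ p :=
      Measurable.tsum fun i => (hmeas i).lintegral_prod_right'
    rw [lintegral_add_right _ hm3]
    refine add_le_add (le_of_eq ?_) ?_
    · rw [setLIntegral_const, Real.volume_Icc]
      norm_num
    · rw [lintegral_tsum fun i => ((hmeas i).lintegral_prod_right').aemeasurable]
      refine le_trans (ENNReal.tsum_le_tsum fun i => hS i M lam L' A f hl hM1 hM2 hLL hf) ?_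
      rw [ENNReal.tsum_mul_left, ENNReal.tsum_mul_left]
      gcongr
  refine le_trans hmain ?_
  set K : ℝ≥0∞ := ENNReal.ofReal (L' ^ 2) with hK
  have hK1 : 1 ≤ K := by
    rw [hK, ENNReal.one_le_ofReal]
    exact one_le_pow₀ hLL
  set a₀ : ℝ≥0∞ := ENNReal.ofReal (A ^ (p - 2)) with ha₀
  set a : ℝ≥0∞ := K * a₀ with ha
  have ha₀a : a₀ ≤ a := by
    rw [ha]
    calc a₀ = 1 * a₀ := (one_mul _).symm
      _ ≤ K * a₀ := by gcongr
  set L : ℝ≥0∞ := ENNReal.ofReal (lam ^ (η / 2)) with hL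
  have hL1 : 1 ≤ L := by
    rw [hL, ENNReal.one_le_ofReal]
    exact Real.one_le_rpow hl (by positivity)
  have hLL' : ENNReal.ofReal (L' ^ 2 * lam ^ η * A ^ (p - 2)) = L * L * a := by
    rw [hL, ha, hK, ha₀, ← ENNReal.ofReal_mul (by positivity), ← ENNReal.ofReal_mul (by positivity),
      ← ENNReal.ofReal_mul (by positivity), ← Real.rpow_add hl0]
    congr 1
    rw [show η / 2 + η / 2 = η by ring]
    ring
  have h1 : ENNReal.ofReal (((C₀ : ℝ) * A) ^ (p - 2)) = (C₀ : ℝ≥0∞) ^ (p - 2) * a₀ := by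
    rw [Real.mul_rpow (by positivity) hA, ENNReal.ofReal_mul (by positivity),
      ← ENNReal.ofReal_rpow_of_nonneg (by positivity) (by linarith), ENNReal.ofReal_coe_nnreal]
  have h2 : ENNReal.ofReal (L' ^ 2 * lam ^ (η / 2) * A ^ (p - 2)) = L * a := by
    rw [ENNReal.ofReal_mul (by positivity), ENNReal.ofReal_mul (by positivity), ha]
    ring
  set N : ℝ≥0∞ := ((M + 1 : ℕ) : ℝ≥0∞) with hN
  have hMN : (M : ℝ≥0∞) ≤ N := by rw [hN]; exact_mod_cast Nat.le_succ M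
  have hN1 : 1 ≤ N := by rw [hN]; exact_mod_cast Nat.succ_le_succ (Nat.zero_le M)
  have hNp : N ^ p * N ≤ C₃ * L := by
    have h3 : N ^ p * N = N ^ (p + 1) := by
      rw [ENNReal.rpow_add_of_nonneg _ _ hp0 (by norm_num), ENNReal.rpow_one]
    have h4 : N = ENNReal.ofReal ((M : ℝ) + 1) := by
      rw [hN, ENNReal.ofReal_add (by positivity) (by norm_num)]
      simp
    rw [h3, h4, ENNReal.ofReal_rpow_of_nonneg (by positivity) (by linarith), hL,
      ← ENNReal.ofReal_coe_nnreal (p := C₃), ← ENNReal.ofReal_mul (by positivity)]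
    exact ENNReal.ofReal_le_ofReal hM3
  rw [hLL', h1, h2]
  have e1 : ((2 ^ (p - 1) * (C₂ ^ p + 3 * (C₃ * (C₀ ^ (p - 2) + C₁))) : ℝ≥0) : ℝ≥0∞) =
      2 ^ (p - 1) * ((C₂ : ℝ≥0∞) ^ p + 3 * (C₃ * ((C₀ : ℝ≥0∞) ^ (p - 2) + C₁))) := by
    rw [ENNReal.coe_mul, ENNReal.coe_add, ENNReal.coe_mul, ENNReal.coe_mul, ENNReal.coe_add,
      ENNReal.coe_rpow_of_nonneg _ (by linarith), ENNReal.coe_rpow_of_nonneg _ hp0,
      ENNReal.coe_rpow_of_nonneg _ (by linarith)]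
    simp
  rw [e1, mul_assoc, mul_assoc]
  refine mul_le_mul_right ?_ _
  calc (C₂ : ℝ≥0∞) ^ p * (a₀ * G) + N ^ p * (((C₀ : ℝ≥0∞) ^ (p - 2) * a₀ + M * (C₁ * (L * a))) *
        (3 * G))
      ≤ (C₂ : ℝ≥0∞) ^ p * (a * G) + N ^ p * (((C₀ : ℝ≥0∞) ^ (p - 2) * a + M * (C₁ * (L * a))) *
        (3 * G)) := by gcongr
    _ ≤ (C₂ : ℝ≥0∞) ^ p * ((L * L * a) * G) +
        3 * (C₃ * ((C₀ : ℝ≥0∞) ^ (p - 2) + C₁)) * ((L * L * a) * G) := by
        refine add_le_add ?_ ?_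
        · gcongr
          calc a = 1 * 1 * a := by ring
            _ ≤ L * L * a := by gcongr
        · calc N ^ p * (((C₀ : ℝ≥0∞) ^ (p - 2) * a + M * (C₁ * (L * a))) * (3 * G))
              ≤ N ^ p * ((N * ((C₀ : ℝ≥0∞) ^ (p - 2) * (L * a)) + N * (C₁ * (L * a))) *
                (3 * G)) := by
                refine mul_le_mul_right (mul_le_mul_left (add_le_add ?_ ?_) _) _
                · calc (C₀ : ℝ≥0∞) ^ (p - 2) * a = 1 * ((C₀ : ℝ≥0∞) ^ (p - 2) * (1 * a)) := by ring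
                    _ ≤ _ := by gcongr
                · gcongr
            _ = (N ^ p * N) * (((C₀ : ℝ≥0∞) ^ (p - 2) + C₁) * (L * a) * (3 * G)) := by ring
            _ ≤ (C₃ * L) * (((C₀ : ℝ≥0∞) ^ (p - 2) + C₁) * (L * a) * (3 * G)) := by gcongr
            _ = _ := by ring
    _ = _ := by ring

end Pool.Agent.H62.BR
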