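import Pool.Agent.H83.AR.Targets2
import Pool.Agent.H27.LS.RED2

/-!
The one dimensional kernel `pk M` of the cutoff `chis (s / M)` (rows CZ and CY).
-/

set_option autoImplicit false

namespace Pool.Agent.H62.BR

open MeasureTheory Set FourierTransform
open Pool.Agent.H83.LS Pool.Agent.H83.AR Pool.Agent.H93.AR Pool.Agent.H54.LS Pool.Agent.H14.LS
open scoped ENNReal NNReal SchwartzMap

lemma chisM_contDiff (M : ℝ) : ContDiff ℝ (⊤ : ℕ∞) (fun s : ℝ => ((chis (s / M) : ℝ) : ℂ)) := by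
  have h1 : ContDiff ℝ (⊤ : ℕ∞) (fun s : ℝ => chis (s / M)) :=
    H27.contDiff_chis.comp (contDiff_id.div_const M)
  exact Complex.ofRealCLM.contDiff.comp h1

lemma chisM_compact {M : ℝ} (hM : 0 < M) :
    HasCompactSupport (fun s : ℝ => ((chis (s / M) : ℝ) : ℂ)) := by
  apply HasCompactSupport.intro (K := Icc (-(4 * M)) (4 * M)) isCompact_Icc
  intro s hs
  by_contra h
  apply hs
  have h1 : chis (s / M) ≠ 0 := by
    intro h2
    apply h
    rw [h2]; simp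
  obtain ⟨h3, h4⟩ := H27.chis_supp h1
  rw [div_lt_iff₀ hM] at h4
  rw [lt_div_iff₀ hM] at h3
  constructor
  · nlinarith
  · exact h4.le

/-- the cutoff as a Schwartz function -/
noncomputable def sM (M : ℝ) (hM : 0 < M) : 𝓢(ℝ, ℂ) :=
  (chisM_compact hM).toSchwartzMap (chisM_contDiff M)

lemma sM_apply (M : ℝ) (hM : 0 < M) (s : ℝ) : sM M hM s = ((chis (s / M) : ℝ) : ℂ) := rfl

lemma pk_eq (M : ℝ) (hM : 0 < M) (z : ℝ) : pk M z = (𝓕⁻ (sM M hM)) z := by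
  rw [SchwartzMap.fourierInv_coe, Real.fourierInv_eq']
  unfold pk e
  congr 1

lemma pk_scale (M : ℝ) (hM : 0 < M) (z : ℝ) : pk M z = (M : ℂ) * pk 1 (M * z) := by
  unfold pk
  have h := Measure.integral_comp_mul_left (fun s : ℝ => e (z * s) * ((chis (s / M) : ℝ) : ℂ)) M
  rw [abs_inv, abs_of_pos hM] at h
  have h2 : (∫ s : ℝ, e (z * s) * ((chis (s / M) : ℝ) : ℂ)) =
      (M : ℂ) * ∫ s : ℝ, e (z * (M * s)) * ((chis (M * s / M) : ℝ) : ℂ) := by
    rw [h]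
    rw [Complex.real_smul, ← mul_assoc]
    push_cast
    rw [mul_inv_cancel₀ (by exact_mod_cast hM.ne'), one_mul]
  rw [h2]
  congr 2
  ext s
  rw [mul_div_cancel_left₀ _ hM.ne', div_one]
  congr 2
  ring

lemma continuous_pk1 : Continuous (pk 1) := by
  have : pk 1 = (𝓕⁻ (sM 1 one_pos) : 𝓢(ℝ, ℂ)) := by
    ext z; exact pk_eq 1 one_pos z
  rw [this]
  exact (𝓕⁻ (sM 1 one_pos) : 𝓢(ℝ, ℂ)).continuous

lemma integrable_pk1 : Integrable (pk 1) := by
  have : pk 1 = (𝓕⁻ (sM 1 one_pos) : 𝓢(ℝ, ℂ)) := by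
    ext z; exact pk_eq 1 one_pos z
  rw [this]
  exact (𝓕⁻ (sM 1 one_pos) : 𝓢(ℝ, ℂ)).integrable

lemma continuous_pk (M : ℝ) (hM : 0 < M) : Continuous (pk M) := by
  have : pk M = fun z => (M : ℂ) * pk 1 (M * z) := by
    ext z; exact pk_scale M hM z
  rw [this]
  exact continuous_const.mul (continuous_pk1.comp (by fun_prop))

lemma integrable_pk (M : ℝ) (hM : 0 < M) : Integrable (pk M) := by
  have : pk M = (𝓕⁻ (sM M hM) : 𝓢(ℝ, ℂ)) := by
    ext z; exact pk_eq M hM z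
  rw [this]
  exact (𝓕⁻ (sM M hM) : 𝓢(ℝ, ℂ)).integrable

/-- the norm of the kernel -/
noncomputable def C1 : ℝ := ∫ z : ℝ, ‖pk 1 z‖

lemma C1_nonneg : 0 ≤ C1 := integral_nonneg (fun _ => norm_nonneg _)

lemma integral_norm_pk (M : ℝ) (hM : 0 < M) : ∫ z : ℝ, ‖pk M z‖ = C1 := by
  have h := Measure.integral_comp_mul_left (fun z : ℝ => ‖pk 1 z‖) M
  rw [abs_inv, abs_of_pos hM, smul_eq_mul] at h
  unfold C1
  calc _ = ∫ z : ℝ, M * ‖pk 1 (M * z)‖ := by
        congr 1; ext z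
        rw [pk_scale M hM, norm_mul, Complex.norm_real, Real.norm_eq_abs, abs_of_pos hM]
    _ = M * ∫ z : ℝ, ‖pk 1 (M * z)‖ := integral_const_mul _ _
    _ = _ := by
        rw [h, ← mul_assoc, mul_inv_cancel₀ hM.ne', one_mul]

lemma lintegral_pk (M : ℝ) (hM : 0 < M) : ∫⁻ z : ℝ, ‖pk M z‖ₑ = ENNReal.ofReal C1 := by
  rw [← integral_norm_pk M hM,
    ofReal_integral_eq_lintegral_ofReal (integrable_pk M hM).norm
      (Filter.Eventually.of_forall (fun _ => norm_nonneg _))]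
  congr 1; ext z; rw [ofReal_norm]

/-- Fourier inversion for the kernel -/
lemma pk_inv (M : ℝ) (hM : 0 < M) (s : ℝ) :
    ∫ z : ℝ, e (-(z * s)) * pk M z = ((chis (s / M) : ℝ) : ℂ) := by
  have h1 : 𝓕 (𝓕⁻ (sM M hM)) = sM M hM := FourierTransform.fourier_fourierInv_eq _
  have h2 : (𝓕 (𝓕⁻ (sM M hM))) s = sM M hM s := by rw [h1]
  rw [SchwartzMap.fourier_coe, Real.fourier_eq', sM_apply] at h2
  rw [← h2]
  congr 1
  ext z
  rw [smul_eq_mul, ← pk_eq]
  unfold e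
  congr 3
  push_cast
  simp [mul_comm]

lemma pk_inv_shift (M : ℝ) (hM : 0 < M) (z' s : ℝ) :
    ∫ z : ℝ, e (-(z * s)) * pk M (z - z') = e (-(z' * s)) * ((chis (s / M) : ℝ) : ℂ) := by
  rw [← pk_inv M hM s, ← integral_const_mul,
    ← integral_add_right_eq_self (fun z : ℝ => e (-(z * s)) * pk M (z - z')) z']
  congr 1
  ext z
  rw [add_sub_cancel_right, ← mul_assoc, ← e_add]
  congr 2
  ring

end Pool.Agent.H62.BR
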