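import Pool.Agent.H62.BR.S1a

/-!
Row S1: restricted type estimate with a cutoff of the last frequency, also on slabs.
-/

set_option autoImplicit false

namespace Pool.Agent.H62.BR

open MeasureTheory Set FourierTransform Filter
open scoped ENNReal NNReal SchwartzMap Topology
open Pool.Agent.H83.AR Pool.Agent.H93.AR Pool.Agent.H83.LS Pool.Agent.H54.LS Pool.Agent.H14.LS

theorem piece_shell2 (hPI : T_PI2) {n : ℕ} {p γ η : ℝ} (hn : 2 ≤ n) (hp2 : 2 < p)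
    (hγ : 0 ≤ γ) (hpγ : (n : ℝ) * (p / 2 - 1) + γ ≤ 1) (hη : 0 < η) : ∃ C : ℝ≥0,
    ∀ (i : ℕ) (lam Lam M L A ε : ℝ) (f : EE (n + 1) → ℂ), 1 ≤ lam → 1 ≤ Lam → Lam ≤ 4 * lam →
    1 ≤ M → M ≤ 4 * lam → 1 ≤ L → BCd A f → 1 / M ≤ ε →
    ∫⁻ t in Icc (1 : ℝ) 2, ∫⁻ x in Sh n i ∩ {x : EE (n + 1) | |x (Fin.last n)| ≤ ε},
      ‖MM (mj2 n lam Lam M t) (AL L (AL L ((Nb n i).indicator f))) x‖ₑ ^ p ≤
      C * ENNReal.ofReal (L ^ 2 * lam ^ η * (ε * lam / M) ^ γ * A ^ (p - 2)) *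
        ∫⁻ x, ‖(Nb n i).indicator f x‖ₑ ^ 2 := by
  obtain ⟨C, hC⟩ := hPI n p γ η hn hp2 hγ hpγ hη
  refine ⟨C, ?_⟩
  intro i lam Lam M L A ε f hl hL hL2 hM hMl hLL hf hε
  obtain ⟨h1, h2⟩ := hC lam Lam M L A ε ((Nb n i).indicator f) hl hL hL2 hM hMl hLL
    (bcd_ind hf (Nb_meas n i)) hε
  have hsup : ∀ x, (Nb n i).indicator f x ≠ 0 → x ∈ Nb n i := by
    intro x hx
    by_contra h
    exact hx (indicator_of_notMem h f)
  rcases lt_or_ge i 2 with hi | hi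
  · refine le_trans (lintegral_mono fun t => lintegral_mono_set inter_subset_right) (h1 ?_)
    intro x hx
    have h3 := (hsup x hx).2
    have h4 : (i : ℝ) ≤ 1 := by
      have : i ≤ 1 := by omega
      exact_mod_cast this
    linarith
  · refine le_trans (lintegral_mono fun t => lintegral_mono_set ?_) (h2 i hi ?_)
    · intro x hx
      exact ⟨⟨hx.1.1, hx.1.2.le⟩, hx.2⟩
    · intro x hx
      exact ⟨(hsup x hx).1, (hsup x hx).2.le⟩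

theorem shell_bound2 (hPI : T_PI2) (hSUI : T_SUI) (hTZ : T_TZ) (hCZ : T_CZ) (hAM : T_AM)
    (hPLE : T_PLE) {n : ℕ} {p γ η : ℝ} (hn : 2 ≤ n) (hp2 : 2 < p) (hγ : 0 ≤ γ)
    (hpγ : (n : ℝ) * (p / 2 - 1) + γ ≤ 1) (hη : 0 < η) : ∃ C₀ C₁ : ℝ≥0,
    ∀ (i m : ℕ) (lam M L A ε : ℝ) (f : EE (n + 1) → ℂ), 1 ≤ lam → 2 * lam ≤ 2 ^ m →
    (2 : ℝ) ^ m ≤ 4 * lam → 1 ≤ M → M ≤ 4 * lam → 1 ≤ L → BCd A f → 1 / M ≤ ε →
    ∫⁻ t in Icc (1 : ℝ) 2, ∫⁻ x in Sh n i ∩ {x : EE (n + 1) | |x (Fin.last n)| ≤ ε},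
      ‖MM (mS n lam M t) (AL L (AL L ((Nb n i).indicator f))) x‖ₑ ^ p ≤
      ((m + 1 : ℕ) : ℝ≥0∞) ^ p * ((((C₀ : ℝ≥0∞) + m * C₁) *
        ENNReal.ofReal (L ^ 2 * lam ^ η * (ε * lam / M) ^ γ * A ^ (p - 2))) *
        ∫⁻ x, ‖(Nb n i).indicator f x‖ₑ ^ 2) := by
  obtain ⟨C₀, hC₀⟩ := low_slab hSUI hTZ hCZ hPLE hn
  obtain ⟨C₁, hC₁⟩ := piece_shell2 hPI hn hp2 hγ hpγ hη
  obtain ⟨Cz, hCz0, hCz⟩ := hCZ n (by omega)
  refine ⟨C₀ ^ (p - 2) * C₀, C₁, ?_⟩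
  intro i m lam M L A ε f hl hm1 hm2 hM hMl hLL hf hε
  have hn1 : 1 ≤ n := by omega
  have hl0 : 0 < lam := by linarith
  have hM0 : 0 < M := by linarith
  have hε0 : 0 < ε := lt_of_lt_of_le (by positivity) hε
  have hp0 : 0 ≤ p := by linarith
  have hA := bcd_nonneg hf
  have hγ1 : γ ≤ 1 := by
    have : 0 ≤ (n : ℝ) * (p / 2 - 1) := by
      apply mul_nonneg (by positivity); linarith
    linarith
  set S : Set (EE (n + 1)) := Sh n i ∩ {x : EE (n + 1) | |x (Fin.last n)| ≤ ε} with hS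
  have hfB : BCd A ((Nb n i).indicator f) := bcd_ind hf (Nb_meas n i)
  obtain ⟨g, hg⟩ : ∃ g, g = AL L (AL L ((Nb n i).indicator f)) := ⟨_, rfl⟩
  have hgB : BCd A g := by rw [hg]; exact al_bcd hAM hn1 hLL (al_bcd hAM hn1 hLL hfB)
  have hg2 : ∫⁻ x, ‖g x‖ₑ ^ 2 ≤ ∫⁻ x, ‖(Nb n i).indicator f x‖ₑ ^ 2 := by
    rw [hg]
    exact (al_l2 hAM hn1 hLL (al_bcd hAM hn1 hLL hfB)).trans (al_l2 hAM hn1 hLL hfB)
  obtain ⟨hh, -, -, hmm, -, -, -⟩ := hCz M A g hM0 (bi_of_bcd hgB)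
  have hhI : Integrable (cz M g) := hh.2.1
  obtain ⟨b, hb0, hbs⟩ : ∃ b : ℕ → ℝ → EE (n + 1) → ℝ≥0∞,
      (∀ t x, b 0 t x = ‖MM (m0 n lam t) (cz M g) x‖ₑ) ∧
      (∀ j t x, b (j + 1) t x = ‖MM (mj n lam (2 ^ (j + 1)) t) (cz M g) x‖ₑ) :=
    ⟨fun j t x => Nat.casesOn j (‖MM (m0 n lam t) (cz M g) x‖ₑ)
      (fun j => ‖MM (mj n lam (2 ^ (j + 1)) t) (cz M g) x‖ₑ), fun _ _ => rfl, fun _ _ _ => rfl⟩
  have hbm : ∀ j, Measurable fun q : ℝ × EE (n + 1) => b j q.1 q.2 ^ p := by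
    intro j
    rcases j with _ | j
    · simp_rw [hb0]
      exact (MM_meas (m0_meas n lam) (fourier_meas' hhI)).enorm.pow_const _
    · simp_rw [hbs]
      exact (MM_meas (mj_meas n lam _) (fourier_meas' hhI)).enorm.pow_const _
  have hpt : ∀ t x, ‖MM (mS n lam M t) g x‖ₑ ^ p ≤
      ((m + 1 : ℕ) : ℝ≥0∞) ^ p * ∑ j ∈ Finset.range (m + 1), b j t x ^ p := by
    intro t x
    refine le_trans (ENNReal.rpow_le_rpow ?_ hp0)
      (fin_sum_pow (by linarith) (m + 1) (fun j => b j t x))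
    rw [mS_def, hmm (mT lam t) x, split_pt hl0 hm1 hhI x, Finset.sum_range_succ', add_comm]
    refine le_trans (enorm_add_le _ _) ?_
    rw [hb0]
    refine add_le_add ?_ le_rfl
    refine le_trans (enorm_sum_le _ _) (le_of_eq ?_)
    refine Finset.sum_congr rfl fun j _ => ?_
    rw [hbs]
  have hc : ((m + 1 : ℕ) : ℝ≥0∞) ^ p ≠ ⊤ :=
    ENNReal.rpow_ne_top_of_nonneg hp0 (ENNReal.natCast_ne_top _)
  rw [← hg]
  calc ∫⁻ t in Icc (1 : ℝ) 2, ∫⁻ x in S, ‖MM (mS n lam M t) g x‖ₑ ^ p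
      ≤ ∫⁻ t in Icc (1 : ℝ) 2, ∫⁻ x in S,
          ((m + 1 : ℕ) : ℝ≥0∞) ^ p * ∑ j ∈ Finset.range (m + 1), b j t x ^ p :=
        lintegral_mono fun t => lintegral_mono fun x => hpt t x
    _ = ((m + 1 : ℕ) : ℝ≥0∞) ^ p * ∑ j ∈ Finset.range (m + 1),
          ∫⁻ t in Icc (1 : ℝ) 2, ∫⁻ x in S, b j t x ^ p := by
        simp_rw [lintegral_const_mul' _ _ hc]
        congr 1
        have e1 : ∀ t, ∫⁻ x in S, ∑ j ∈ Finset.range (m + 1), b j t x ^ p =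
            ∑ j ∈ Finset.range (m + 1), ∫⁻ x in S, b j t x ^ p := fun t =>
          lintegral_finsetSum _ fun j _ => (hbm j).comp (measurable_prodMk_left (x := t))
        simp_rw [e1]
        exact lintegral_finsetSum _ fun j _ =>
          (hbm j).lintegral_prod_right' (ν := volume.restrict S)
    _ ≤ _ := by
        refine mul_le_mul_right ?_ _
        set B : ℝ≥0∞ := ENNReal.ofReal (L ^ 2 * lam ^ η * (ε * lam / M) ^ γ * A ^ (p - 2)) with hB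
        rw [Finset.sum_range_succ', add_comm, add_mul, add_mul]
        refine add_le_add ?_ ?_
        · calc ∫⁻ t in Icc (1 : ℝ) 2, ∫⁻ x in S, b 0 t x ^ p
              ≤ ∫⁻ t in Icc (1 : ℝ) 2, ∫⁻ x in {x : EE (n + 1) | |x (Fin.last n)| ≤ ε},
                  ‖MM (m0 n lam t) (cz M g) x‖ₑ ^ p := by
                simp_rw [hb0]
                exact lintegral_mono fun t => lintegral_mono_set inter_subset_right
            _ ≤ ENNReal.ofReal (((C₀ : ℝ) * A) ^ (p - 2)) *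
                (C₀ * ENNReal.ofReal ((ε * lam / M) ^ γ) * ∫⁻ x, ‖g x‖ₑ ^ 2) :=
                hC₀ p γ lam M ε A g hp2 hγ hγ1 hl hM hMl hε0 (bi_of_bcd hgB)
            _ = ((C₀ : ℝ≥0∞) ^ (p - 2) * C₀) *
                  (ENNReal.ofReal ((ε * lam / M) ^ γ * A ^ (p - 2))) * ∫⁻ x, ‖g x‖ₑ ^ 2 := by
                rw [Real.mul_rpow (by positivity) hA, ENNReal.ofReal_mul (by positivity),
                  ← ENNReal.ofReal_rpow_of_nonneg (by positivity) (by linarith),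
                  ENNReal.ofReal_coe_nnreal, ENNReal.ofReal_mul (by positivity)]
                ring
            _ ≤ _ := by
                rw [ENNReal.coe_mul, ENNReal.coe_rpow_of_nonneg _ (by linarith)]
                gcongr
                rw [hB]
                apply ENNReal.ofReal_le_ofReal
                have h1 : 1 ≤ L ^ 2 * lam ^ η := by
                  have h2 : 1 ≤ L ^ 2 := one_le_pow₀ hLL
                  have h3 : 1 ≤ lam ^ η := Real.one_le_rpow hl hη.le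
                  nlinarith
                rw [mul_assoc (L ^ 2 * lam ^ η)]
                have h4 : 0 ≤ (ε * lam / M) ^ γ * A ^ (p - 2) := by positivity
                nlinarith
        · refine le_trans (Finset.sum_le_card_nsmul _ _
            (C₁ * B * ∫⁻ x, ‖(Nb n i).indicator f x‖ₑ ^ 2) ?_) ?_
          · intro j hj
            rw [Finset.mem_range] at hj
            have h1 : (1 : ℝ) ≤ 2 ^ (j + 1) := one_le_pow₀ (by norm_num)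
            have h2 : (2 : ℝ) ^ (j + 1) ≤ 4 * lam :=
              le_trans (pow_le_pow_right₀ (by norm_num) (by omega)) hm2
            simp_rw [hbs]
            have h3 := hC₁ i lam (2 ^ (j + 1)) M L A ε f hl h1 h2 hM hMl hLL hf hε
            rw [← hg] at h3
            refine le_trans (le_of_eq ?_) h3
            congr 1; ext t; congr 1; ext x
            rw [mj2_def, hmm (mj n lam (2 ^ (j + 1)) t) x]
          · rw [Finset.card_range, nsmul_eq_mul]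
            exact le_of_eq (by ring)

theorem far_bound2 (hFD : T_FD) (hYG : T_YG) {n : ℕ} (hn : 2 ≤ n) : ∃ C : ℝ≥0,
    ∀ (p lam t : ℝ) (f : EE (n + 1) → ℂ), 1 ≤ p → 1 ≤ lam → t ∈ Icc (1 : ℝ) 2 → Measurable f →
    ∫⁻ x, (∫⁻ y, {z : EE (n + 1) | 4 ≤ ‖z‖}.indicator (fun z => ‖MK (mT lam t) z‖ₑ) (x - y) *
      ‖f y‖ₑ) ^ p ≤ ((C : ℝ≥0∞) * ENNReal.ofReal lam⁻¹) ^ p * ∫⁻ x, ‖f x‖ₑ ^ p := by
  obtain ⟨C, hC⟩ := hFD (n + 1) 1 (by omega)
  refine ⟨C, ?_⟩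
  intro p lam t f hp hl ht hf
  have h1 := hC lam t hl ht
  rw [pow_one] at h1
  have hs : MeasurableSet {z : EE (n + 1) | 4 ≤ ‖z‖} :=
    measurableSet_le measurable_const measurable_norm
  have hk : Measurable ({z : EE (n + 1) | 4 ≤ ‖z‖}.indicator (fun z => ‖MK (mT lam t) z‖ₑ)) :=
    ((MK_continuous (mT_int (by linarith) t)).measurable.enorm).indicator hs
  refine le_trans (hYG (EE (n + 1)) volume _ (fun x => ‖f x‖ₑ) p hk hf.enorm hp) ?_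
  gcongr
  rw [lintegral_indicator hs]
  exact h1

theorem p_le_of {n : ℕ} {p γ : ℝ} (hn : 2 ≤ n) (hγ : 0 ≤ γ)
    (hpγ : (n : ℝ) * (p / 2 - 1) + γ ≤ 1) : p ≤ 2 + 2 / (n : ℝ) := by
  have hn0 : (0 : ℝ) < n := by exact_mod_cast (by omega : 0 < n)
  have h1 : (n : ℝ) * (p / 2 - 1) ≤ 1 := by linarith
  have h2 : p / 2 - 1 ≤ 1 / n := by
    rw [le_div_iff₀ hn0]
    linarith
  have h3 : 2 / (n : ℝ) = 2 * (1 / n) := by ring
  linarith

/-- the first estimate -/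
theorem s1_first (hMAI : T_MAI) (hCZ : T_CZ) (hAM : T_AM) {n : ℕ} {p γ η : ℝ} (hn : 2 ≤ n)
    (hp2 : 2 < p) (hγ : 0 ≤ γ) (hpγ : (n : ℝ) * (p / 2 - 1) + γ ≤ 1) (hη : 0 < η) :
    ∃ C : ℝ≥0, ∀ (lam M L A : ℝ) (f : EE (n + 1) → ℂ), 1 ≤ lam → 1 ≤ M → 1 ≤ L → BI A f →
    ∫⁻ t in Icc (1 : ℝ) 2, ∫⁻ x, ‖MM (mS n lam M t) (AL L (AL L f)) x‖ₑ ^ p ≤
      C * ENNReal.ofReal (L ^ 2 * lam ^ η * A ^ (p - 2)) * ∫⁻ x, ‖f x‖ₑ ^ 2 := by
  obtain ⟨Cz, hCz0, hCz⟩ := hCZ n (by omega)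
  obtain ⟨Cm, hCm⟩ := hMAI n p η hn hp2 (p_le_of hn hγ hpγ) hη
  refine ⟨Cm * (Cz ^ (p - 2) * Cz).toNNReal, ?_⟩
  intro lam M L A f hl hM hL hf
  have hn1 : 1 ≤ n := by omega
  have hM0 : 0 < M := by linarith
  have hA := bi_nonneg hf
  have hg : BI A (AL L (AL L f)) := al_bi hAM hn1 hL (al_bi hAM hn1 hL hf)
  obtain ⟨h1, h2, -, -, -, -, -⟩ := hCz M A f hM0 hf
  obtain ⟨-, -, -, h3, -, -, -⟩ := hCz M A _ hM0 hg
  have h4 : cz M (AL L (AL L f)) = AL L (AL L (cz M f)) :=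
    cz_al2 hAM hn1 hL (fun f hf => (hCz M A f hM0 hf).2.2.2.2.2.2) hf
  have h5 := hCm lam L (Cz * A) (cz M f) hl hL h1
  rw [← h4] at h5
  have h6 : ∀ t x, MM (mS n lam M t) (AL L (AL L f)) x =
      MM (mT lam t) (cz M (AL L (AL L f))) x := by
    intro t x
    rw [mS_def, h3 (mT lam t) x]
  simp only [h6]
  refine h5.trans ?_
  calc (Cm : ℝ≥0∞) * ENNReal.ofReal (L ^ 2 * lam ^ η * (Cz * A) ^ (p - 2)) *
        ∫⁻ x, ‖cz M f x‖ₑ ^ 2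
      ≤ (Cm : ℝ≥0∞) * ENNReal.ofReal (L ^ 2 * lam ^ η * (Cz * A) ^ (p - 2)) *
        (ENNReal.ofReal Cz * ∫⁻ x, ‖f x‖ₑ ^ 2) := by gcongr
    _ = _ := by
        have e1 : (((Cz ^ (p - 2) * Cz).toNNReal : ℝ≥0) : ℝ≥0∞) =
            ENNReal.ofReal (Cz ^ (p - 2) * Cz) := rfl
        rw [ENNReal.coe_mul, e1, Real.mul_rpow hCz0 hA,
          show L ^ 2 * lam ^ η * (Cz ^ (p - 2) * A ^ (p - 2)) =
            Cz ^ (p - 2) * (L ^ 2 * lam ^ η * A ^ (p - 2)) by ring,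
          ENNReal.ofReal_mul (Real.rpow_nonneg hCz0 _),
          ENNReal.ofReal_mul (Real.rpow_nonneg hCz0 _)]
        ring

theorem enn_alg {N Lη B X Y : ℝ≥0∞} {C₀ C₁ C₃ : ℝ≥0} {m : ℕ} {p : ℝ} (hp0 : 0 ≤ p)
    (hN : N = ((m + 1 : ℕ) : ℝ≥0∞)) (h : N ^ (p + 1) ≤ C₃ * Lη) (hB : B * Lη = Y) :
    N ^ p * ((((C₀ : ℝ≥0∞) + m * C₁) * B) * (3 * X)) ≤
      3 * (C₃ * ((C₀ : ℝ≥0∞) + C₁)) * (Y * X) := by
  have hMN : (m : ℝ≥0∞) ≤ N := by rw [hN]; exact_mod_cast Nat.le_succ m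
  have hN1 : 1 ≤ N := by rw [hN]; exact_mod_cast Nat.succ_le_succ (Nat.zero_le m)
  have h3 : N ^ p * N = N ^ (p + 1) := by
    rw [ENNReal.rpow_add_of_nonneg _ _ hp0 (by norm_num), ENNReal.rpow_one]
  calc N ^ p * ((((C₀ : ℝ≥0∞) + m * C₁) * B) * (3 * X))
      ≤ N ^ p * (((N * (C₀ : ℝ≥0∞) + N * C₁) * B) * (3 * X)) := by
        gcongr
        calc (C₀ : ℝ≥0∞) = 1 * C₀ := (one_mul _).symm
          _ ≤ N * C₀ := by gcongr
    _ = (N ^ p * N) * (((C₀ : ℝ≥0∞) + C₁) * B * (3 * X)) := by ring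
    _ ≤ (C₃ * Lη) * (((C₀ : ℝ≥0∞) + C₁) * B * (3 * X)) := by
        rw [h3]; gcongr
    _ = 3 * (C₃ * ((C₀ : ℝ≥0∞) + C₁)) * ((B * Lη) * X) := by ring
    _ = _ := by rw [hB]

/-- the second estimate for data with compact support -/
theorem s1_bcd (hPI : T_PI2) (hSUI : T_SUI) (hTZ : T_TZ) (hCZ : T_CZ) (hFD : T_FD)
    (hAM : T_AM) (hPLE : T_PLE) (hYG : T_YG) {n : ℕ} {p γ η : ℝ} (hn : 2 ≤ n) (hp2 : 2 < p)
    (hγ : 0 ≤ γ) (hpγ : (n : ℝ) * (p / 2 - 1) + γ ≤ 1) (hη : 0 < η) :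
    ∃ C : ℝ≥0, ∀ (lam M L A ε : ℝ) (f : EE (n + 1) → ℂ), 1 ≤ lam → 1 ≤ M → M ≤ 4 * lam →
    1 ≤ L → BCd A f → 1 / M ≤ ε →
    ∫⁻ t in Icc (1 : ℝ) 2, ∫⁻ x in {x : EE (n + 1) | |x (Fin.last n)| ≤ ε},
      ‖MM (mS n lam M t) (AL L (AL L f)) x‖ₑ ^ p ≤
    C * ENNReal.ofReal (L ^ 2 * lam ^ η * (ε * lam / M) ^ γ * A ^ (p - 2)) *
      ∫⁻ x, ‖f x‖ₑ ^ 2 := by
  have hp0 : 0 ≤ p := by linarith
  have hn1 : 1 ≤ n := by omega
  have hγ1 : γ ≤ 1 := by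
    have : 0 ≤ (n : ℝ) * (p / 2 - 1) := by
      apply mul_nonneg (by positivity); linarith
    linarith
  obtain ⟨C₀, C₁, hS⟩ := shell_bound2 hPI hSUI hTZ hCZ hAM hPLE hn hp2 hγ hpγ (η := η / 2)
    (by positivity)
  obtain ⟨C₂, hF⟩ := far_bound2 hFD hYG hn
  obtain ⟨C₃, hC₃⟩ := count (η := η / 2) (q := p + 1) (by positivity) (by linarith)
  obtain ⟨Cz, hCz0, hCz⟩ := hCZ n (by omega)
  refine ⟨2 ^ (p - 1) * (C₂ ^ p * 16 * (Cz ^ (p - 2) * Cz).toNNReal + 3 * (C₃ * (C₀ + C₁))), ?_⟩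
  intro lam M L' A ε f hl hM hMl hLL hf hε
  have hl0 : 0 < lam := by linarith
  have hM0 : 0 < M := by linarith
  have hε0 : 0 < ε := lt_of_lt_of_le (by positivity) hε
  have hA := bcd_nonneg hf
  obtain ⟨m, hm1, hm2, hm3⟩ := hC₃ lam hl
  obtain ⟨g, hgdef⟩ : ∃ g, g = AL L' (AL L' f) := ⟨_, rfl⟩
  have hgB : BCd A g := by rw [hgdef]; exact al_bcd hAM hn1 hLL (al_bcd hAM hn1 hLL hf)
  obtain ⟨G, hG⟩ : ∃ G : ℝ≥0∞, G = ∫⁻ x, ‖f x‖ₑ ^ 2 := ⟨_, rfl⟩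
  have hgG : ∫⁻ x, ‖g x‖ₑ ^ 2 ≤ G := by
    rw [hgdef, hG]
    exact (al_l2 hAM hn1 hLL (al_bcd hAM hn1 hLL hf)).trans (al_l2 hAM hn1 hLL hf)
  obtain ⟨hh, hh2, -, hhm, -, hhc, -⟩ := hCz M A g hM0 (bi_of_bcd hgB)
  obtain ⟨h, hdef⟩ : ∃ h, h = cz M g := ⟨_, rfl⟩
  rw [← hdef] at hh hh2 hhm hhc
  have hh3 : ∫⁻ x, ‖h x‖ₑ ^ 2 ≤ ENNReal.ofReal Cz * G := hh2.trans (by gcongr)
  set Sl : Set (EE (n + 1)) := {x : EE (n + 1) | |x (Fin.last n)| ≤ ε} with hSl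
  have hSlm : MeasurableSet Sl := meas_slab n ε
  obtain ⟨fi, hfi⟩ : ∃ fi : ℕ → EE (n + 1) → ℂ, fi = fun i => (Nb n i).indicator f := ⟨_, rfl⟩
  obtain ⟨gi, hgi⟩ : ∃ gi : ℕ → EE (n + 1) → ℂ, gi = fun i => AL L' (AL L' (fi i)) := ⟨_, rfl⟩
  have hfiB : ∀ i, BCd A (fi i) := by intro i; rw [hfi]; exact bcd_ind hf (Nb_meas n i)
  have hgiB : ∀ i, BCd A (gi i) := by
    intro i; rw [hgi]
    exact al_bcd hAM hn1 hLL (al_bcd hAM hn1 hLL (hfiB i))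
  have hgind : ∀ i, gi i = (Nb n i).indicator g := by
    intro i
    rw [hgi, hfi, hgdef]
    simp only
    rw [al_ind hAM hn1 hLL f, al_ind hAM hn1 hLL (AL L' f)]
  have hhind : ∀ i, (Nb n i).indicator h = cz M (gi i) := by
    intro i
    funext x
    rw [hgind]
    have h1 := hhc (Ico (8 * ((i : ℝ) - 1)) (8 * ((i : ℝ) + 2))) x
    have h2 : ({x : EE (n + 1) | hor x ∈ Ico (8 * ((i : ℝ) - 1)) (8 * ((i : ℝ) + 2))} :
        Set (EE (n + 1))) = Nb n i := by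
      ext y; rfl
    rw [h2] at h1
    exact h1.symm
  obtain ⟨far, hfar⟩ : ∃ far : ℝ → EE (n + 1) → ℝ≥0∞, far = fun t x =>
    ∫⁻ y, {z : EE (n + 1) | 4 ≤ ‖z‖}.indicator (fun z => ‖MK (mT lam t) z‖ₑ) (x - y) * ‖h y‖ₑ :=
    ⟨_, rfl⟩
  have hmeas : ∀ i, Measurable fun q : ℝ × EE (n + 1) => ‖MM (mS n lam M q.1) (gi i) q.2‖ₑ ^ p :=
    fun i => (MM_meas (mS_meas n lam M) (fourier_meas' (bcd_int (hgiB i)))).enorm.pow_const _
  have hMS : ∀ t x, MM (mS n lam M t) g x = MM (mT lam t) h x := by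
    intro t x
    rw [mS_def, hhm (mT lam t) x]
  have hMSi : ∀ i t x, MM (mS n lam M t) (gi i) x = MM (mT lam t) ((Nb n i).indicator h) x := by
    intro i t x
    rw [hhind, mS_def, (hCz M A (gi i) hM0 (bi_of_bcd (hgiB i))).2.2.2.1 (mT lam t) x]
  have hpt : ∀ t x, ‖MM (mS n lam M t) g x‖ₑ ^ p ≤ 2 ^ (p - 1) * (far t x ^ p +
      ∑' i, (Sh n i).indicator (fun x => ‖MM (mS n lam M t) (gi i) x‖ₑ ^ p) x) := by
    intro t x
    obtain ⟨k, hk⟩ := exists_shell x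
    have h1 := (loc_bi (t := t) hl0 hh hk).trans_eq (add_comm _ _)
    rw [← hMS, ← hMSi] at h1
    refine le_trans (ENNReal.rpow_le_rpow h1 hp0) ?_
    refine le_trans (ENNReal.rpow_add_le_mul_rpow_add_rpow _ _ (by linarith)) ?_
    rw [hfar]
    gcongr
    have h2 : ‖MM (mS n lam M t) (gi k) x‖ₑ ^ p =
        (Sh n k).indicator (fun x => ‖MM (mS n lam M t) (gi k) x‖ₑ ^ p) x := by
      rw [indicator_of_mem hk]
    rw [h2]
    exact ENNReal.le_tsum (f := fun i => (Sh n i).indicator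
      (fun x => ‖MM (mS n lam M t) (gi i) x‖ₑ ^ p) x) k
  have h2p : (2 : ℝ≥0∞) ^ (p - 1) ≠ ⊤ := ENNReal.rpow_ne_top_of_nonneg (by linarith) (by norm_num)
  obtain ⟨FR, hFR⟩ : ∃ FR : ℝ≥0∞, FR = ((C₂ : ℝ≥0∞) * ENNReal.ofReal lam⁻¹) ^ p *
    (ENNReal.ofReal ((Cz * A) ^ (p - 2)) * (ENNReal.ofReal Cz * G)) := ⟨_, rfl⟩
  have hstep : ∀ t ∈ Icc (1 : ℝ) 2, ∫⁻ x in Sl, ‖MM (mS n lam M t) g x‖ₑ ^ p ≤ 2 ^ (p - 1) *
      (FR + ∑' i, ∫⁻ x in Sh n i ∩ Sl, ‖MM (mS n lam M t) (gi i) x‖ₑ ^ p) := by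
    intro t ht
    refine le_trans (lintegral_mono fun x => hpt t x) ?_
    rw [lintegral_const_mul' _ _ h2p]
    refine mul_le_mul_right ?_ _
    have hm2 : Measurable fun x => ∑' i, (Sh n i).indicator
        (fun x => ‖MM (mS n lam M t) (gi i) x‖ₑ ^ p) x := by
      refine Measurable.tsum fun i => ?_
      exact ((hmeas i).comp (measurable_prodMk_left (x := t))).indicator (Sh_meas n i)
    rw [lintegral_add_right _ hm2]
    refine add_le_add ?_ (le_of_eq ?_)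
    · refine le_trans (setLIntegral_le_lintegral _ _) ?_
      rw [hfar, hFR]
      refine le_trans (hF p lam t h (by linarith) hl ht hh.1) ?_
      refine mul_le_mul_right (le_trans (pow_split hp2 (mul_nonneg hCz0 hA) fun x => ?_)
        (mul_le_mul_right hh3 _)) _
      rw [← ofReal_norm]
      exact ENNReal.ofReal_le_ofReal (hh.2.2 x)
    · rw [lintegral_tsum]
      · congr 1; funext i
        rw [lintegral_indicator (Sh_meas n i), Measure.restrict_restrict (Sh_meas n i)]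
      · intro i
        exact (((hmeas i).comp (measurable_prodMk_left (x := t))).indicator
          (Sh_meas n i)).aemeasurable
  have hGi : ∑' i, ∫⁻ x, ‖fi i x‖ₑ ^ 2 ≤ 3 * G := by
    rw [← lintegral_tsum]
    · rw [hG, ← lintegral_const_mul' _ _ (by norm_num)]
      refine lintegral_mono fun x => ?_
      refine le_trans (le_of_eq ?_) (overlap x (‖f x‖ₑ ^ 2))
      congr 1; funext i
      rw [hfi]
      by_cases hx : x ∈ Nb n i
      · simp only [indicator_of_mem hx]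
      · simp [indicator_of_notMem hx]
    · intro i
      exact ((hfiB i).1.enorm.pow_const 2).aemeasurable
  obtain ⟨B, hB⟩ : ∃ B : ℝ≥0∞, B = ENNReal.ofReal
    (L' ^ 2 * lam ^ (η / 2) * (ε * lam / M) ^ γ * A ^ (p - 2)) := ⟨_, rfl⟩
  have hmain : ∫⁻ t in Icc (1 : ℝ) 2, ∫⁻ x in Sl, ‖MM (mS n lam M t) g x‖ₑ ^ p ≤ 2 ^ (p - 1) *
      (FR + ((m + 1 : ℕ) : ℝ≥0∞) ^ p * ((((C₀ : ℝ≥0∞) + m * C₁) * B) * (3 * G))) := by
    refine le_trans (setLIntegral_mono' measurableSet_Icc hstep) ?_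
    rw [lintegral_const_mul' _ _ h2p]
    refine mul_le_mul_right ?_ _
    have hm3 : Measurable fun t => ∑' i, ∫⁻ x in Sh n i ∩ Sl,
        ‖MM (mS n lam M t) (gi i) x‖ₑ ^ p :=
      Measurable.tsum fun i => (hmeas i).lintegral_prod_right'
    rw [lintegral_add_right _ hm3]
    refine add_le_add (le_of_eq ?_) ?_
    · rw [setLIntegral_const, Real.volume_Icc]
      norm_num
    · rw [lintegral_tsum fun i => ((hmeas i).lintegral_prod_right').aemeasurable]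
      have hSi : ∀ i, ∫⁻ t in Icc (1 : ℝ) 2, ∫⁻ x in Sh n i ∩ Sl,
          ‖MM (mS n lam M t) (gi i) x‖ₑ ^ p ≤ ((m + 1 : ℕ) : ℝ≥0∞) ^ p *
            ((((C₀ : ℝ≥0∞) + m * C₁) * B) * ∫⁻ x, ‖fi i x‖ₑ ^ 2) := by
        intro i
        rw [hgi, hfi, hB]
        exact hS i m lam M L' A ε f hl hm1 hm2 hM hMl hLL hf hε
      refine le_trans (ENNReal.tsum_le_tsum hSi) ?_
      rw [ENNReal.tsum_mul_left, ENNReal.tsum_mul_left]
      gcongr
  rw [← hgdef, ← hG]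
  refine le_trans hmain ?_
  obtain ⟨Y, hY⟩ : ∃ Y : ℝ≥0∞, Y = ENNReal.ofReal
    (L' ^ 2 * lam ^ η * (ε * lam / M) ^ γ * A ^ (p - 2)) := ⟨_, rfl⟩
  rw [← hY]
  have hBY : B * ENNReal.ofReal (lam ^ (η / 2)) = Y := by
    rw [hB, hY, ← ENNReal.ofReal_mul (by positivity)]
    congr 1
    have e1 : lam ^ η = lam ^ (η / 2) * lam ^ (η / 2) := by
      rw [← Real.rpow_add hl0]; congr 1; ring
    rw [e1]
    ring
  have hN : ((m + 1 : ℕ) : ℝ≥0∞) ^ (p + 1) ≤ C₃ * ENNReal.ofReal (lam ^ (η / 2)) := by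
    have h4 : ((m + 1 : ℕ) : ℝ≥0∞) = ENNReal.ofReal ((m : ℝ) + 1) := by
      rw [ENNReal.ofReal_add (by positivity) (by norm_num)]
      simp
    rw [h4, ENNReal.ofReal_rpow_of_nonneg (by positivity) (by linarith),
      ← ENNReal.ofReal_coe_nnreal (p := C₃), ← ENNReal.ofReal_mul (by positivity)]
    exact ENNReal.ofReal_le_ofReal hm3
  have hsec := enn_alg (X := G) (C₀ := C₀) (C₁ := C₁) hp0 rfl hN hBY
  have hfirst : FR ≤ (C₂ : ℝ≥0∞) ^ p * 16 * ENNReal.ofReal (Cz ^ (p - 2) * Cz) * (Y * G) := by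
    have hb : 0 < ε * lam / M := by positivity
    have h16 : 1 / (16 * lam) ≤ (ε * lam / M) ^ γ := by
      refine le_trans ?_ (min_le_rpow hb hγ hγ1)
      apply le_min
      · rw [div_le_one (by positivity)]
        linarith
      · rw [div_le_div_iff₀ (by positivity) hM0]
        have h5 : 1 ≤ ε * M := by
          rwa [div_le_iff₀ hM0] at hε
        have h6 : M * M ≤ 16 * lam * lam := by nlinarith
        nlinarith
    have h7 : ENNReal.ofReal lam⁻¹ ^ p ≤ 16 * ENNReal.ofReal ((ε * lam / M) ^ γ) := by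
      have h8 : (16 : ℝ≥0∞) = ENNReal.ofReal 16 := by simp
      rw [ENNReal.ofReal_rpow_of_nonneg (by positivity) hp0, h8, ← ENNReal.ofReal_mul (by norm_num)]
      apply ENNReal.ofReal_le_ofReal
      have h9 : (lam⁻¹) ^ p ≤ (lam⁻¹) ^ (1 : ℝ) :=
        Real.rpow_le_rpow_of_exponent_ge (by positivity) (inv_le_one_of_one_le₀ hl) (by linarith)
      rw [Real.rpow_one] at h9
      refine h9.trans ?_
      calc lam⁻¹ = 16 * (1 / (16 * lam)) := by field_simp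
        _ ≤ _ := by gcongr
    have h10 : ENNReal.ofReal ((ε * lam / M) ^ γ) * ENNReal.ofReal (A ^ (p - 2)) ≤ Y := by
      rw [hY, ← ENNReal.ofReal_mul (by positivity)]
      apply ENNReal.ofReal_le_ofReal
      have h1 : 1 ≤ L' ^ 2 * lam ^ η := by
        have h2 : 1 ≤ L' ^ 2 := one_le_pow₀ hLL
        have h3 : 1 ≤ lam ^ η := Real.one_le_rpow hl hη.le
        nlinarith
      rw [mul_assoc (L' ^ 2 * lam ^ η)]
      have h4 : 0 ≤ (ε * lam / M) ^ γ * A ^ (p - 2) := by positivity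
      nlinarith
    rw [hFR]
    calc ((C₂ : ℝ≥0∞) * ENNReal.ofReal lam⁻¹) ^ p *
        (ENNReal.ofReal ((Cz * A) ^ (p - 2)) * (ENNReal.ofReal Cz * G))
        = (C₂ : ℝ≥0∞) ^ p * (ENNReal.ofReal lam⁻¹) ^ p *
          (ENNReal.ofReal (Cz ^ (p - 2)) * ENNReal.ofReal (A ^ (p - 2)) *
            (ENNReal.ofReal Cz * G)) := by
          rw [ENNReal.mul_rpow_of_nonneg _ _ hp0, Real.mul_rpow hCz0 hA,
            ENNReal.ofReal_mul (Real.rpow_nonneg hCz0 _)]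
      _ ≤ (C₂ : ℝ≥0∞) ^ p * (16 * ENNReal.ofReal ((ε * lam / M) ^ γ)) *
          (ENNReal.ofReal (Cz ^ (p - 2)) * ENNReal.ofReal (A ^ (p - 2)) *
            (ENNReal.ofReal Cz * G)) := by gcongr
      _ = (C₂ : ℝ≥0∞) ^ p * 16 * (ENNReal.ofReal (Cz ^ (p - 2)) * ENNReal.ofReal Cz) *
          ((ENNReal.ofReal ((ε * lam / M) ^ γ) * ENNReal.ofReal (A ^ (p - 2))) * G) := by ring
      _ ≤ (C₂ : ℝ≥0∞) ^ p * 16 * (ENNReal.ofReal (Cz ^ (p - 2)) * ENNReal.ofReal Cz) *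
          (Y * G) := by gcongr
      _ = _ := by rw [ENNReal.ofReal_mul (Real.rpow_nonneg hCz0 _)]
  have e1 : ((2 ^ (p - 1) * (C₂ ^ p * 16 * (Cz ^ (p - 2) * Cz).toNNReal +
      3 * (C₃ * (C₀ + C₁))) : ℝ≥0) : ℝ≥0∞) =
      2 ^ (p - 1) * ((C₂ : ℝ≥0∞) ^ p * 16 * ENNReal.ofReal (Cz ^ (p - 2) * Cz) +
        3 * (C₃ * ((C₀ : ℝ≥0∞) + C₁))) := by
    rw [ENNReal.coe_mul, ENNReal.coe_add, ENNReal.coe_mul, ENNReal.coe_mul, ENNReal.coe_mul,
      ENNReal.coe_mul, ENNReal.coe_add,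
      ENNReal.coe_rpow_of_nonneg _ (by linarith), ENNReal.coe_rpow_of_nonneg _ hp0]
    simp [ENNReal.ofReal]
  rw [e1]
  calc 2 ^ (p - 1) * (FR + ((m + 1 : ℕ) : ℝ≥0∞) ^ p *
        ((((C₀ : ℝ≥0∞) + m * C₁) * B) * (3 * G)))
      ≤ 2 ^ (p - 1) * ((C₂ : ℝ≥0∞) ^ p * 16 * ENNReal.ofReal (Cz ^ (p - 2) * Cz) * (Y * G) +
        3 * (C₃ * ((C₀ : ℝ≥0∞) + C₁)) * (Y * G)) :=
        mul_le_mul' le_rfl (add_le_add hfirst hsec)
    _ = _ := by ring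

theorem pf_s1 (hPI : T_PI2) (hMAI : T_MAI) (hSUI : T_SUI) (hTZ : T_TZ) (hCZ : T_CZ)
    (hFD : T_FD) (hLI : T_LI) (hAM : T_AM) (hPLE : T_PLE) (hYG : T_YG) : T_S1 := by
  intro n p γ η hn hp2 hγ hpγ hη
  obtain ⟨Ca, ha⟩ := s1_first hMAI hCZ hAM hn hp2 hγ hpγ hη
  obtain ⟨Cb, hb⟩ := s1_bcd hPI hSUI hTZ hCZ hFD hAM hPLE hYG hn hp2 hγ hpγ hη
  refine ⟨Ca + Cb, ?_⟩
  intro lam M L A f hl hM hMl hL hf
  obtain ⟨hfm, hfi, hfb⟩ := hf
  have hp0 : 0 ≤ p := by linarith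
  have hl0 : 0 < lam := by linarith
  constructor
  · refine (ha lam M L A f hl hM hL ⟨hfm, hfi, hfb⟩).trans ?_
    gcongr
    exact_mod_cast le_self_add
  intro ε hε
  set Sl : Set (EE (n + 1)) := {x : EE (n + 1) | |x (Fin.last n)| ≤ ε} with hSl
  set Bl : ℕ → Set (EE (n + 1)) := fun k => Metric.closedBall (0 : EE (n + 1)) (k : ℝ) with hBl
  have hBm : ∀ k, MeasurableSet (Bl k) := fun k => Metric.isClosed_closedBall.measurableSet
  have hbcd : ∀ k, BCd A ((Bl k).indicator f) := by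
    intro k
    refine ⟨hfm.indicator (hBm k), fun y =>
      le_trans (norm_indicator_le_norm_self _ _) (hfb y), k, fun y hy => ?_⟩
    refine indicator_of_notMem ?_ _
    rw [mem_closedBall_zero_iff]
    exact not_le.mpr hy
  set G : ℕ → ℝ × EE (n + 1) → ℝ≥0∞ := fun k q =>
    ‖MM (mS n lam M q.1) (AL L (AL L ((Bl k).indicator f))) q.2‖ₑ ^ p with hG
  have hGm : ∀ k, Measurable (G k) := fun k =>
    (MM_meas (mS_meas n lam M) (fourier_meas' (bcd_int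
      (al_bcd hAM (by omega) hL (al_bcd hAM (by omega) hL (hbcd k)))))).enorm.pow_const _
  have hbound : ∀ k, ∫⁻ t in Icc (1 : ℝ) 2, ∫⁻ x in Sl, G k (t, x) ≤
      Cb * ENNReal.ofReal (L ^ 2 * lam ^ η * (ε * lam / M) ^ γ * A ^ (p - 2)) *
        ∫⁻ x, ‖f x‖ₑ ^ 2 := by
    intro k
    refine le_trans (hb lam M L A ε _ hl hM hMl hL (hbcd k) hε) ?_
    refine mul_le_mul' le_rfl (lintegral_mono fun x => ?_)
    gcongr
    by_cases hx : x ∈ Bl k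
    · rw [indicator_of_mem hx]
    · rw [indicator_of_notMem hx, enorm_zero]
      exact bot_le
  have hlim : ∀ t x, Tendsto (fun k => G k (t, x)) atTop
      (nhds (‖MM (mS n lam M t) (AL L (AL L f)) x‖ₑ ^ p)) := by
    intro t x
    have h1 := (hLI n L A (mS n lam M t) f (by omega) hL ⟨hfm, hfi, hfb⟩ (mS_meas' n lam M t)
      (mS_int n hl0 M t) x).1
    exact (ENNReal.continuous_rpow_const.tendsto _).comp h1.enorm
  have hin : ∀ t, ∫⁻ x in Sl, ‖MM (mS n lam M t) (AL L (AL L f)) x‖ₑ ^ p ≤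
      liminf (fun k => ∫⁻ x in Sl, G k (t, x)) atTop := by
    intro t
    calc ∫⁻ x in Sl, ‖MM (mS n lam M t) (AL L (AL L f)) x‖ₑ ^ p
        = ∫⁻ x in Sl, liminf (fun k => G k (t, x)) atTop := by
          congr 1; ext x
          exact (hlim t x).liminf_eq.symm
      _ ≤ liminf (fun k => ∫⁻ x in Sl, G k (t, x)) atTop :=
          lintegral_liminf_le fun k => (hGm k).comp (measurable_const.prodMk measurable_id)
  calc ∫⁻ t in Icc (1 : ℝ) 2, ∫⁻ x in Sl, ‖MM (mS n lam M t) (AL L (AL L f)) x‖ₑ ^ p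
      ≤ ∫⁻ t in Icc (1 : ℝ) 2, liminf (fun k => ∫⁻ x in Sl, G k (t, x)) atTop :=
        lintegral_mono fun t => hin t
    _ ≤ liminf (fun k => ∫⁻ t in Icc (1 : ℝ) 2, ∫⁻ x in Sl, G k (t, x)) atTop :=
        lintegral_liminf_le fun k => (hGm k).lintegral_prod_right'
    _ ≤ Cb * ENNReal.ofReal (L ^ 2 * lam ^ η * (ε * lam / M) ^ γ * A ^ (p - 2)) *
        ∫⁻ x, ‖f x‖ₑ ^ 2 := by
        refine liminf_le_of_frequently_le' (Frequently.of_forall fun k => hbound k)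
    _ ≤ _ := by
        gcongr
        exact_mod_cast le_add_self

end Pool.Agent.H62.BR
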