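import Pool.Agent.H83.AR.Targets2
import Pool.Agent.H62.BR.MA

/-!
Row S1, part 1: facts on `BI`, the cutoff `cz`, localization, the low piece on slabs.
-/

set_option autoImplicit false

namespace Pool.Agent.H62.BR

open MeasureTheory Set FourierTransform Filter
open scoped ENNReal NNReal SchwartzMap Topology
open Pool.Agent.H83.AR Pool.Agent.H93.AR Pool.Agent.H83.LS Pool.Agent.H54.LS Pool.Agent.H14.LS

theorem bi_of_bcd {d : ℕ} {A : ℝ} {f : EE d → ℂ} (h : BCd A f) : BI A f :=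
  ⟨h.1, bcd_int h, h.2.1⟩

theorem bi_nonneg {d : ℕ} {A : ℝ} {f : EE d → ℂ} (h : BI A f) : 0 ≤ A :=
  (norm_nonneg _).trans (h.2.2 0)

theorem al_bi (hAM : T_AM) {n : ℕ} {L A : ℝ} (hn : 1 ≤ n) (hL : 1 ≤ L) {f : EE (n + 1) → ℂ}
    (hf : BI A f) : BI A (AL L f) :=
  ⟨(hAM n L hn hL).1 f hf.1, (hAM n L hn hL).2.2.2.1 f hf.1 hf.2.1,
    (hAM n L hn hL).2.1 f A hf.1 hf.2.2⟩

theorem al_l2i (hAM : T_AM) {n : ℕ} {L A : ℝ} (hn : 1 ≤ n) (hL : 1 ≤ L) {f : EE (n + 1) → ℂ}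
    (hf : BI A f) : ∫⁻ x, ‖AL L f x‖ₑ ^ 2 ≤ ∫⁻ x, ‖f x‖ₑ ^ 2 := by
  have h1 := (hAM n L hn hL).2.2.1 f 2 hf.1 (by norm_num)
  simpa only [ENNReal.rpow_two] using h1

theorem mS_def (n : ℕ) (lam M t : ℝ) : mS n lam M t =
    fun ξ => mT lam t ξ * ((chis (ξ (Fin.last n) / M) : ℝ) : ℂ) := rfl

theorem mj2_def (n : ℕ) (lam Lam M t : ℝ) : mj2 n lam Lam M t =
    fun ξ => mj n lam Lam t ξ * ((chis (ξ (Fin.last n) / M) : ℝ) : ℂ) := rfl

theorem measurable_chisM (n : ℕ) (M : ℝ) :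
    Measurable (fun ξ : EE (n + 1) => ((chis (ξ (Fin.last n) / M) : ℝ) : ℂ)) := by
  apply Complex.measurable_ofReal.comp
  have h1 : Measurable chis := by
    have : Continuous chis := by
      unfold chis
      exact (eta0_smooth.continuous.comp (by fun_prop)).sub
        (eta0_smooth.continuous.comp (by fun_prop))
    exact this.measurable
  exact h1.comp (((EuclideanSpace.proj (𝕜 := ℝ) (Fin.last n)).continuous.measurable).div_const M)

theorem chis_le1 (s : ℝ) : |chis s| ≤ 1 := by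
  unfold chis
  rw [abs_le]
  have h1 := eta0_nonneg (s / 2)
  have h2 := eta0_le_one (s / 2)
  have h3 := eta0_nonneg (4 * s)
  have h4 := eta0_le_one (4 * s)
  constructor <;> linarith

theorem mS_meas (n : ℕ) (lam M : ℝ) :
    Measurable fun q : ℝ × EE (n + 1) => mS n lam M q.1 q.2 := by
  unfold mS
  exact (mT_meas lam).mul ((measurable_chisM n M).comp measurable_snd)

theorem mS_meas' (n : ℕ) (lam M t : ℝ) : Measurable (mS n lam M t) := by
  rw [mS_def]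
  have h1 : Measurable (mT (d := n + 1) lam t) :=
    (mT_meas lam).comp (measurable_const.prodMk measurable_id)
  exact h1.mul (measurable_chisM n M)

theorem mS_int (n : ℕ) {lam : ℝ} (hl : 0 < lam) (M t : ℝ) : Integrable (mS n lam M t) := by
  refine (mT_int hl t).norm.mono' (mS_meas' n lam M t).aestronglyMeasurable
    (Eventually.of_forall fun ξ => ?_)
  unfold mS
  rw [norm_mul, Complex.norm_real, Real.norm_eq_abs]
  exact mul_le_of_le_one_right (norm_nonneg _) (chis_le1 _)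

theorem mj2_meas (n : ℕ) (lam Lam M : ℝ) :
    Measurable fun q : ℝ × EE (n + 1) => mj2 n lam Lam M q.1 q.2 := by
  unfold mj2
  exact (mj_meas n lam Lam).mul ((measurable_chisM n M).comp measurable_snd)

theorem meas_slab (n : ℕ) (ε : ℝ) : MeasurableSet {x : EE (n + 1) | |x (Fin.last n)| ≤ ε} :=
  measurableSet_le
    (((EuclideanSpace.proj (𝕜 := ℝ) (Fin.last n)).continuous.abs).measurable) measurable_const

/-- the constant of `T_CZ` and its consequences -/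
theorem cz_al2 (hAM : T_AM) {n : ℕ} {L M A : ℝ} (hn : 1 ≤ n) (hL : 1 ≤ L)
    (hC : ∀ (f : EE (n + 1) → ℂ), BI A f →
      ∀ L : ℝ, 1 ≤ L → ∀ x, AL L (cz M f) x = cz M (AL L f) x) {f : EE (n + 1) → ℂ}
    (hf : BI A f) : cz M (AL L (AL L f)) = AL L (AL L (cz M f)) := by
  have h1 : cz M (AL L (AL L f)) = AL L (cz M (AL L f)) := by
    funext x; exact (hC _ (al_bi hAM hn hL hf) L hL x).symm
  have h2 : cz M (AL L f) = AL L (cz M f) := by
    funext x; exact (hC _ hf L hL x).symm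
  rw [h1, h2]

/-- localization for bounded integrable functions -/
theorem loc_bi {n i : ℕ} {lam t A : ℝ} (hl : 0 < lam) {f : EE (n + 1) → ℂ} (hf : BI A f)
    {x : EE (n + 1)} (hx : x ∈ Sh n i) :
    ‖MM (mT lam t) f x‖ₑ ≤ ‖MM (mT lam t) ((Nb n i).indicator f) x‖ₑ +
      ∫⁻ y, {z : EE (n + 1) | 4 ≤ ‖z‖}.indicator (fun z => ‖MK (mT lam t) z‖ₑ) (x - y) * ‖f y‖ₑ := by
  have hfi : Integrable ((Nb n i).indicator f) := hf.2.1.indicator (Nb_meas n i)
  have hfc : Integrable ((Nb n i)ᶜ.indicator f) := hf.2.1.indicator (Nb_meas n i).compl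
  have hsum : ∀ y, (Nb n i).indicator f y + (Nb n i)ᶜ.indicator f y = f y := by
    intro y
    have := congrFun (indicator_self_add_compl (Nb n i) f) y
    simpa using this
  have hI : ∀ g : EE (n + 1) → ℂ, Integrable g → Integrable fun y => MK (mT lam t) (x - y) * g y := by
    intro g hg
    have h1 : ∃ B : ℝ, ∀ z, ‖MK (mT (d := n + 1) lam t) z‖ ≤ B := by
      refine ⟨∫ ξ, ‖mT (d := n + 1) lam t ξ‖, fun z => ?_⟩
      unfold MK
      refine le_trans (norm_integral_le_integral_norm _) (le_of_eq ?_)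
      congr 1; ext ξ
      rw [norm_mul, norm_e, one_mul]
    obtain ⟨B, hB⟩ := h1
    apply hg.bdd_mul (c := B)
    · exact ((MK_continuous (mT_int hl t)).comp
        (continuous_const.sub continuous_id)).aestronglyMeasurable
    · exact Eventually.of_forall fun y => hB _
  rw [MM_conv (mT_int hl t) hf.2.1, MM_conv (mT_int hl t) hfi]
  have h1 : ∫ y, MK (mT lam t) (x - y) * f y =
      (∫ y, MK (mT lam t) (x - y) * (Nb n i).indicator f y) +
      ∫ y, MK (mT lam t) (x - y) * (Nb n i)ᶜ.indicator f y := by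
    rw [← integral_add (hI _ hfi) (hI _ hfc)]
    congr 1; ext y
    rw [← mul_add, hsum]
  rw [h1]
  refine le_trans (enorm_add_le _ _) ?_
  gcongr
  refine le_trans (enorm_integral_le_lintegral_enorm _) ?_
  refine lintegral_mono fun y => ?_
  by_cases hy : y ∈ Nb n i
  · rw [indicator_of_notMem (by simp [hy]), mul_zero, enorm_zero]
    positivity
  · rw [indicator_of_mem (by simpa using hy), enorm_mul, indicator_of_mem]
    have := far_of hx hy
    rw [mem_ofPred_eq]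
    linarith

/-- `min(1,b) ≤ b^γ` -/
theorem min_le_rpow {b γ : ℝ} (hb : 0 < b) (h0 : 0 ≤ γ) (h1 : γ ≤ 1) : min 1 b ≤ b ^ γ := by
  rcases le_total b 1 with h | h
  · rw [min_eq_right h]
    calc b = b ^ (1 : ℝ) := (Real.rpow_one b).symm
      _ ≤ b ^ γ := Real.rpow_le_rpow_of_exponent_ge hb h h1
  · rw [min_eq_left h]
    exact Real.one_le_rpow h h0

/-- the low piece on slabs -/
theorem low_slab (hSUI : T_SUI) (hTZ : T_TZ) (hCZ : T_CZ) (hPLE : T_PLE) {n : ℕ} (hn : 2 ≤ n) :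
    ∃ C : ℝ≥0, ∀ (p γ lam M ε A : ℝ) (g : EE (n + 1) → ℂ), 2 < p → 0 ≤ γ → γ ≤ 1 → 1 ≤ lam →
    1 ≤ M → M ≤ 4 * lam → 0 < ε → BI A g →
    ∫⁻ t in Icc (1 : ℝ) 2, ∫⁻ x in {x : EE (n + 1) | |x (Fin.last n)| ≤ ε},
      ‖MM (m0 n lam t) (cz M g) x‖ₑ ^ p ≤
      ENNReal.ofReal (((C : ℝ) * A) ^ (p - 2)) *
        (C * ENNReal.ofReal ((ε * lam / M) ^ γ) * ∫⁻ x, ‖g x‖ₑ ^ 2) := by
  obtain ⟨Cs, hCs0, -, -, -, hCs⟩ := hSUI n hn
  obtain ⟨Ct, hCt⟩ := hTZ n (by omega)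
  obtain ⟨Cz, hCz0, hCz⟩ := hCZ n (by omega)
  obtain ⟨C, hC⟩ : ∃ C : ℝ≥0, C = (Cs * Cz).toNNReal + Ct + Cz.toNNReal := ⟨_, rfl⟩
  refine ⟨C, ?_⟩
  intro p γ lam M ε A g hp hγ0 hγ1 hl hM hMl hε hg
  have hA := bi_nonneg hg
  have hl0 : 0 < lam := by linarith
  have hM0 : 0 < M := by linarith
  have hC1 : Cs * Cz ≤ (C : ℝ) := by
    rw [hC]
    push_cast
    rw [Real.coe_toNNReal _ (by positivity), Real.coe_toNNReal _ hCz0]
    have := Ct.2
    linarith [NNReal.coe_nonneg Ct]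
  have hC2 : (Ct : ℝ) ≤ (C : ℝ) := by
    rw [hC]
    push_cast
    rw [Real.coe_toNNReal _ (by positivity), Real.coe_toNNReal _ hCz0]
    have : 0 ≤ Cs * Cz := by positivity
    linarith
  have hC3 : Cz ≤ (C : ℝ) := by
    rw [hC]
    push_cast
    rw [Real.coe_toNNReal _ (by positivity), Real.coe_toNNReal _ hCz0]
    have : 0 ≤ Cs * Cz := by positivity
    linarith [NNReal.coe_nonneg Ct]
  obtain ⟨hh, hh2, -, hhm, -, -, -⟩ := hCz M A g hM0 hg
  have hsup : ∀ t ∈ Icc (1 : ℝ) 2, ∀ x, ‖MM (m0 n lam t) (cz M g) x‖ₑ ≤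
      ENNReal.ofReal ((C : ℝ) * A) := by
    intro t ht x
    rw [← ofReal_norm]
    apply ENNReal.ofReal_le_ofReal
    refine (hCs lam t (Cz * A) (cz M g) hl ht hh x).trans ?_
    calc Cs * (Cz * A) = Cs * Cz * A := by ring
      _ ≤ C * A := mul_le_mul_of_nonneg_right hC1 hA
  have hD : 0 ≤ (C : ℝ) * A := mul_nonneg C.2 hA
  have hpt : ∀ t ∈ Icc (1 : ℝ) 2, ∀ x, ‖MM (m0 n lam t) (cz M g) x‖ₑ ^ p ≤
      ENNReal.ofReal (((C : ℝ) * A) ^ (p - 2)) * ‖MM (m0 n lam t) (cz M g) x‖ₑ ^ 2 := by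
    intro t ht x
    have h1 : ‖MM (m0 n lam t) (cz M g) x‖ₑ ^ p = ‖MM (m0 n lam t) (cz M g) x‖ₑ ^ (p - 2) *
        ‖MM (m0 n lam t) (cz M g) x‖ₑ ^ 2 := by
      rw [← ENNReal.rpow_natCast, ← ENNReal.rpow_add_of_nonneg _ _ (by linarith) (by norm_num)]
      congr 1; push_cast; ring
    rw [h1]
    gcongr
    rw [← ENNReal.ofReal_rpow_of_nonneg hD (by linarith)]
    exact ENNReal.rpow_le_rpow (hsup t ht x) (by linarith)
  have hen : ∫⁻ t in Icc (1 : ℝ) 2, ∫⁻ x in {x : EE (n + 1) | |x (Fin.last n)| ≤ ε},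
      ‖MM (m0 n lam t) (cz M g) x‖ₑ ^ 2 ≤ C * ENNReal.ofReal ((ε * lam / M) ^ γ) *
        ∫⁻ x, ‖g x‖ₑ ^ 2 := by
    have e1 : ∫⁻ t in Icc (1 : ℝ) 2, ∫⁻ x in {x : EE (n + 1) | |x (Fin.last n)| ≤ ε},
      ‖MM (m0 n lam t) (cz M g) x‖ₑ ^ 2 ≤ C * ENNReal.ofReal (ε * lam / M) *
        ∫⁻ x, ‖g x‖ₑ ^ 2 := by
      obtain ⟨m, hm⟩ : ∃ m : EE (n + 1) → ℂ, m = fun ξ =>
        ((chi (‖ξ‖ / lam) * eta0 (hor ξ) : ℝ) : ℂ) := ⟨_, rfl⟩
      have hmm : Measurable m := by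
        rw [hm]
        apply Complex.measurable_ofReal.comp
        apply Measurable.mul
        · exact chi_smooth.continuous.measurable.comp (by fun_prop)
        · exact eta0_smooth.continuous.measurable.comp hor_cont.measurable
      have hm1 : ∀ ξ, ‖m ξ‖ ≤ 1 := by
        intro ξ
        rw [hm]
        rw [Complex.norm_real, Real.norm_eq_abs, abs_mul, abs_of_nonneg (eta0_nonneg _)]
        exact mul_le_one₀ (chi_abs_le _) (eta0_nonneg _) (eta0_le_one _)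
      have hm2 : ∀ ξ, m ξ ≠ 0 → lam / 2 ≤ ‖ξ‖ ∧ ‖ξ‖ ≤ 2 * lam := by
        intro ξ hξ
        have h1 : chi (‖ξ‖ / lam) ≠ 0 := by
          intro h
          apply hξ
          rw [hm]
          simp [h]
        obtain ⟨h2, h3⟩ := chi_supp h1
        rw [div_le_iff₀ hl0] at h3
        rw [le_div_iff₀ hl0] at h2
        exact ⟨by linarith, h3⟩
      have h1 := hCt lam M ε A m g hl hM0 hMl hε hmm hm1 hm2 hg
      have h2 : ∀ t x, MM (fun ξ => e (t * ‖ξ‖) * m ξ * ((chis (ξ (Fin.last n) / M) : ℝ) : ℂ)) g x =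
          MM (m0 n lam t) (cz M g) x := by
        intro t x
        rw [← hhm (m0 n lam t) x, hm]
        rfl
      simp only [h2] at h1
      refine h1.trans ?_
      gcongr
      exact_mod_cast hC2
    have e2 : ∫⁻ t in Icc (1 : ℝ) 2, ∫⁻ x in {x : EE (n + 1) | |x (Fin.last n)| ≤ ε},
      ‖MM (m0 n lam t) (cz M g) x‖ₑ ^ 2 ≤ C * ENNReal.ofReal 1 * ∫⁻ x, ‖g x‖ₑ ^ 2 := by
      have h3 : ∀ t, ∫⁻ x in {x : EE (n + 1) | |x (Fin.last n)| ≤ ε},
          ‖MM (m0 n lam t) (cz M g) x‖ₑ ^ 2 ≤ C * ENNReal.ofReal 1 * ∫⁻ x, ‖g x‖ₑ ^ 2 := by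
        intro t
        refine (setLIntegral_le_lintegral _ _).trans ?_
        refine ((hPLE (n + 1) (m0 n lam t) (cz M g) (m0_meas' n lam t)
          (fun ξ => le_trans (m0_le n lam t ξ) (mT_norm lam t ξ)) (m0_int n hl0 t) hh.2.1
          ⟨Cz * A, hh.2.2⟩ hh.1).2).trans ?_
        refine hh2.trans ?_
        rw [ENNReal.ofReal_one, mul_one]
        gcongr
        rw [← ENNReal.ofReal_coe_nnreal]
        exact ENNReal.ofReal_le_ofReal hC3
      refine (setLIntegral_mono' measurableSet_Icc fun t _ => h3 t).trans ?_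
      rw [setLIntegral_const, Real.volume_Icc]
      norm_num
    have hb : 0 < ε * lam / M := by positivity
    rcases le_total 1 (ε * lam / M) with h | h
    · refine e2.trans ?_
      gcongr
      exact Real.one_le_rpow h hγ0
    · refine e1.trans ?_
      gcongr
      calc ε * lam / M = (ε * lam / M) ^ (1 : ℝ) := (Real.rpow_one _).symm
        _ ≤ _ := Real.rpow_le_rpow_of_exponent_ge hb h hγ1
  calc ∫⁻ t in Icc (1 : ℝ) 2, ∫⁻ x in {x : EE (n + 1) | |x (Fin.last n)| ≤ ε},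
      ‖MM (m0 n lam t) (cz M g) x‖ₑ ^ p
      ≤ ∫⁻ t in Icc (1 : ℝ) 2, ∫⁻ x in {x : EE (n + 1) | |x (Fin.last n)| ≤ ε},
        ENNReal.ofReal (((C : ℝ) * A) ^ (p - 2)) * ‖MM (m0 n lam t) (cz M g) x‖ₑ ^ 2 :=
        setLIntegral_mono' measurableSet_Icc fun t ht => lintegral_mono fun x => hpt t ht x
    _ = ENNReal.ofReal (((C : ℝ) * A) ^ (p - 2)) *
        ∫⁻ t in Icc (1 : ℝ) 2, ∫⁻ x in {x : EE (n + 1) | |x (Fin.last n)| ≤ ε},
          ‖MM (m0 n lam t) (cz M g) x‖ₑ ^ 2 := by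
        simp_rw [lintegral_const_mul' _ _ ENNReal.ofReal_ne_top]
    _ ≤ _ := mul_le_mul_right hen _

end Pool.Agent.H62.BR
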