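import Pool.Agent.H83.AR.Targets2

/-!
Row S22: the plane with both cutoffs, slabs in the second variable.
-/

set_option autoImplicit false

namespace Pool.Agent.H62.BR

open MeasureTheory Set FourierTransform
open Pool.Agent.H83.LS Pool.Agent.H83.AR Pool.Agent.H93.AR Pool.Agent.H54.LS
open scoped ENNReal NNReal SchwartzMap

lemma KK2_swap (t lam Lam M : ℝ) (x : ℝ × ℝ) : KK2 t lam Lam M x = KK2 t lam M Lam (x.2, x.1) := by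
  unfold KK2
  rw [Measure.volume_eq_prod, ← integral_prod_swap]
  congr 1
  ext ξ
  simp only [Prod.fst_swap, Prod.snd_swap]
  rw [show x.1 * ξ.2 + x.2 * ξ.1 + t * Real.sqrt (ξ.2 ^ 2 + ξ.1 ^ 2) =
    x.2 * ξ.1 + x.1 * ξ.2 + t * Real.sqrt (ξ.1 ^ 2 + ξ.2 ^ 2) by
      rw [add_comm (ξ.2 ^ 2)]; ring, add_comm (ξ.2 ^ 2)]
  push_cast
  ring

lemma cv_KK2_swap (t lam Lam M : ℝ) (g : ℝ × ℝ → ℂ) (x : ℝ × ℝ) :
    cv (KK2 t lam Lam M) g x = cv (KK2 t lam M Lam) (fun y => g (y.2, y.1)) (x.2, x.1) := by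
  unfold cv
  rw [Measure.volume_eq_prod, ← integral_prod_swap]
  congr 1
  ext y
  rw [KK2_swap]
  simp only [Prod.fst_sub, Prod.snd_sub, Prod.fst_swap, Prod.snd_swap]
  rfl

lemma lintegral_swap (Φ : ℝ × ℝ → ℝ≥0∞) : ∫⁻ x : ℝ × ℝ, Φ (x.2, x.1) = ∫⁻ x, Φ x := by
  rw [Measure.volume_eq_prod]
  exact lintegral_prod_swap Φ

lemma slab_meas (δ : ℝ) : MeasurableSet {x : ℝ × ℝ | |x.1| ≤ δ} :=
  measurableSet_le (by fun_prop) measurable_const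

lemma slab_meas2 (δ : ℝ) : MeasurableSet {x : ℝ × ℝ | |x.2| ≤ δ} :=
  measurableSet_le (by fun_prop) measurable_const

lemma lintegral_swap_slab (Φ : ℝ × ℝ → ℝ≥0∞) (δ : ℝ) :
    ∫⁻ x in {x : ℝ × ℝ | |x.2| ≤ δ}, Φ (x.2, x.1) = ∫⁻ x in {x : ℝ × ℝ | |x.1| ≤ δ}, Φ x := by
  rw [← lintegral_indicator (slab_meas2 δ), ← lintegral_indicator (slab_meas δ),
    ← lintegral_swap]
  congr 1

lemma swap_integrable {g : ℝ × ℝ → ℂ} (hg : Integrable g) :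
    Integrable (fun y : ℝ × ℝ => g (y.2, y.1)) := by
  rw [Measure.volume_eq_prod] at hg ⊢
  exact hg.swap

theorem s22_two (hCY : T_CY) (hS : T_S2D) (p η : ℝ) (hp : 2 < p) (hp3 : p ≤ 3) (hη : 0 < η) :
    ∃ C : ℝ≥0, ∀ (lam Lam M : ℝ) (g : ℝ × ℝ → ℂ) (A : ℝ), 1 ≤ lam → 0 < Lam → Lam ≤ 4 * lam →
      0 < M → Measurable g → Integrable g → (∀ y, ‖g y‖ ≤ A) →
    (∫⁻ t in Icc (1 : ℝ) 2, ∫⁻ x, ‖cv (KK2 t lam Lam M) g x‖ₑ ^ p ≤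
      C * ENNReal.ofReal (lam ^ η * A ^ (p - 2)) * ∫⁻ y, ‖g y‖ₑ ^ 2) ∧
    (∀ δ : ℝ, 0 < δ →
      ∫⁻ t in Icc (1 : ℝ) 2, ∫⁻ x in {x : ℝ × ℝ | |x.1| ≤ δ}, ‖cv (KK2 t lam Lam M) g x‖ₑ ^ p ≤
        C * ENNReal.ofReal (lam ^ η * (δ * lam / Lam) ^ (2 - p / 2) * A ^ (p - 2)) *
          ∫⁻ y, ‖g y‖ₑ ^ 2) := by
  obtain ⟨C, hC, hcy⟩ := hCY
  obtain ⟨C', hC'⟩ := hS p η hp hp3 hη
  refine ⟨C' * (C ^ (p - 2) * C).toNNReal, ?_⟩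
  intro lam Lam M g A hlam hLam hLl hM hgm hgi hgA
  have hA : 0 ≤ A := (norm_nonneg _).trans (hgA 0)
  obtain ⟨h1, h2, h3, -, h5, h6⟩ := hcy M A g hM hgm hgi hgA
  obtain ⟨h7, h8⟩ := hC' lam Lam (cy M g) (C * A) hlam hLam hLl h1 h2 h3
  have h9 : ∫⁻ y, ‖cy M g y‖ₑ ^ 2 ≤ ENNReal.ofReal C * ∫⁻ y, ‖g y‖ₑ ^ 2 := by
    have := h5 univ MeasurableSet.univ
    simpa using this
  have hCe : (((C ^ (p - 2) * C).toNNReal : ℝ≥0) : ℝ≥0∞) = ENNReal.ofReal (C ^ (p - 2) * C) := rfl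
  have key : ∀ R : ℝ, 0 ≤ R → (C' : ℝ≥0∞) * ENNReal.ofReal (R * (C * A) ^ (p - 2)) *
      ∫⁻ y, ‖cy M g y‖ₑ ^ 2 ≤ ((C' * (C ^ (p - 2) * C).toNNReal : ℝ≥0) : ℝ≥0∞) *
        ENNReal.ofReal (R * A ^ (p - 2)) * ∫⁻ y, ‖g y‖ₑ ^ 2 := by
    intro R hR
    calc _ ≤ (C' : ℝ≥0∞) * ENNReal.ofReal (R * (C * A) ^ (p - 2)) *
          (ENNReal.ofReal C * ∫⁻ y, ‖g y‖ₑ ^ 2) := by gcongr
      _ = _ := by
          rw [Real.mul_rpow hC hA, ENNReal.coe_mul, hCe,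
            show R * (C ^ (p - 2) * A ^ (p - 2)) = C ^ (p - 2) * (R * A ^ (p - 2)) by ring,
            ENNReal.ofReal_mul (Real.rpow_nonneg hC _), ENNReal.ofReal_mul (Real.rpow_nonneg hC _)]
          ring
  constructor
  · refine le_trans (le_of_eq ?_) (h7.trans (key (lam ^ η) (by positivity)))
    congr 1; ext t; congr 1; ext x
    rw [h6 t lam Lam x (by linarith) hLam]
  · intro δ hδ
    refine le_trans (le_of_eq ?_) ((h8 δ hδ).trans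
      (key (lam ^ η * (δ * lam / Lam) ^ (2 - p / 2)) (by positivity)))
    congr 1; ext t; congr 1; ext x
    rw [h6 t lam Lam x (by linarith) hLam]

theorem pf_s22 (hCY : T_CY) (hS : T_S2D) : T_S22 := by
  intro p η hp hp3 hη
  obtain ⟨C, hC⟩ := s22_two hCY hS p η hp hp3 hη
  refine ⟨C, ?_⟩
  intro lam Lam M g A hlam hLam hLl hM hMl hgm hgi hgA
  obtain ⟨h1, h2⟩ := hC lam Lam M g A hlam hLam hLl hM hgm hgi hgA
  refine ⟨h1, h2, ?_⟩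
  intro δ hδ
  have h3 : ∫⁻ y : ℝ × ℝ, ‖g (y.2, y.1)‖ₑ ^ 2 = ∫⁻ y, ‖g y‖ₑ ^ 2 :=
    lintegral_swap (fun y => ‖g y‖ₑ ^ 2)
  obtain ⟨-, h4⟩ := hC lam M Lam (fun y => g (y.2, y.1)) A hlam hM hMl hLam
    (hgm.comp (by fun_prop)) (swap_integrable hgi) (fun y => hgA _)
  have h5 := h4 δ hδ
  rw [h3] at h5
  refine le_trans (le_of_eq ?_) h5
  congr 1; ext t
  rw [← lintegral_swap_slab (fun x => ‖cv (KK2 t lam M Lam) (fun y => g (y.2, y.1)) x‖ₑ ^ p) δ]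
  congr 1; ext x
  rw [cv_KK2_swap]

end Pool.Agent.H62.BR
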